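import Pool.Agent.Q318.OSR.Sys2

set_option autoImplicit false

/-! Analysis of the rewrite system. -/

namespace Pool.Agent.Q318.OSR

abbrev St (K : List CR) : G → G → Prop := Step (RR K)

/-! ### Heads -/

section heads
variable (a : Fin 5 → G) (t u v h : G) (i : Fin 5)

@[simp] theorem head_z : gz.head = Sy.z := rfl
@[simp] theorem head_s : (gs t).head = Sy.s := rfl
@[simp] theorem head_e : ge.head = Sy.e := rfl
@[simp] theorem head_c : (gc a h).head = Sy.c := rfl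
@[simp] theorem head_P : (gP u v).head = Sy.P := rfl
@[simp] theorem head_n : (gn t).head = Sy.n := rfl
@[simp] theorem head_m : gm.head = Sy.m := rfl
@[simp] theorem head_A : (gA i).head = Sy.A i := rfl
@[simp] theorem head_L : (gL t).head = Sy.L := rfl
@[simp] theorem head_M : (gM t).head = Sy.M := rfl
@[simp] theorem head_Y : (gY u v).head = Sy.Y := rfl

end heads

theorem app_inj {S : Signature} {f : S.Sym} {a b : Fin (S.ar f) → Ground S}
    (h : Ground.app f a = Ground.app f b) : a = b := by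
  injection h with _ h

theorem gs_inj {t t' : G} (h : gs t = gs t') : t = t' :=
  congrFun (app_inj (S := Sg) (f := Sy.s) h) (0 : Fin 1)

theorem gn_inj {t t' : G} (h : gn t = gn t') : t = t' :=
  congrFun (app_inj (S := Sg) (f := Sy.n) h) (0 : Fin 1)

theorem gL_inj {t t' : G} (h : gL t = gL t') : t = t' :=
  congrFun (app_inj (S := Sg) (f := Sy.L) h) (0 : Fin 1)

theorem gM_inj {t t' : G} (h : gM t = gM t') : t = t' :=
  congrFun (app_inj (S := Sg) (f := Sy.M) h) (0 : Fin 1)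

theorem gP_inj {u v u' v' : G} (h : gP u v = gP u' v') : u = u' ∧ v = v' :=
  ⟨congrFun (app_inj (S := Sg) (f := Sy.P) h) (0 : Fin 2),
    congrFun (app_inj (S := Sg) (f := Sy.P) h) (1 : Fin 2)⟩

theorem gY_inj {u v u' v' : G} (h : gY u v = gY u' v') : u = u' ∧ v = v' :=
  ⟨congrFun (app_inj (S := Sg) (f := Sy.Y) h) (0 : Fin 2),
    congrFun (app_inj (S := Sg) (f := Sy.Y) h) (1 : Fin 2)⟩

theorem gc_inj {a a' : Fin 5 → G} {h h' : G} (e : gc a h = gc a' h') : a = a' ∧ h = h' :=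
  ⟨funext fun j => congrFun (app_inj (S := Sg) (f := Sy.c) e) (j.succ : Fin 6),
    congrFun (app_inj (S := Sg) (f := Sy.c) e) (0 : Fin 6)⟩

theorem gA_inj {i j : Fin 5} (h : gA i = gA j) : i = j := by
  have := congrArg Ground.head h
  simp only [head_A] at this
  injection this

/-! ### Counting -/

section count
variable (w : Sy → ℕ) (a : Fin 5 → G) (t u v h : G) (i : Fin 5)

theorem cnt_z : gz.cnt (S := Sg) w = w Sy.z :=
  (congrArg (w Sy.z + ·) (Fin.sum_univ_zero (M := ℕ) _)).trans (by simp)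
theorem cnt_s : (gs t).cnt (S := Sg) w = w Sy.s + t.cnt w :=
  congrArg (w Sy.s + ·) (Fin.sum_univ_one (M := ℕ) _)
theorem cnt_e : ge.cnt (S := Sg) w = w Sy.e :=
  (congrArg (w Sy.e + ·) (Fin.sum_univ_zero (M := ℕ) _)).trans (by simp)
theorem cnt_c : (gc a h).cnt (S := Sg) w = w Sy.c + (h.cnt w + ∑ j, (a j).cnt w) :=
  congrArg (w Sy.c + ·) (Fin.sum_univ_succ (M := ℕ) _)
theorem cnt_P : (gP u v).cnt (S := Sg) w = w Sy.P + (u.cnt w + v.cnt w) :=
  congrArg (w Sy.P + ·) (Fin.sum_univ_two (M := ℕ) _)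
theorem cnt_n : (gn t).cnt (S := Sg) w = w Sy.n + t.cnt w :=
  congrArg (w Sy.n + ·) (Fin.sum_univ_one (M := ℕ) _)
theorem cnt_m : gm.cnt (S := Sg) w = w Sy.m :=
  (congrArg (w Sy.m + ·) (Fin.sum_univ_zero (M := ℕ) _)).trans (by simp)
theorem cnt_A : (gA i).cnt (S := Sg) w = w (Sy.A i) :=
  (congrArg (w (Sy.A i) + ·) (Fin.sum_univ_zero (M := ℕ) _)).trans (by simp)
theorem cnt_L : (gL t).cnt (S := Sg) w = w Sy.L + t.cnt w :=
  congrArg (w Sy.L + ·) (Fin.sum_univ_one (M := ℕ) _)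
theorem cnt_M : (gM t).cnt (S := Sg) w = w Sy.M + t.cnt w :=
  congrArg (w Sy.M + ·) (Fin.sum_univ_one (M := ℕ) _)
theorem cnt_Y : (gY u v).cnt (S := Sg) w = w Sy.Y + (u.cnt w + v.cnt w) :=
  congrArg (w Sy.Y + ·) (Fin.sum_univ_two (M := ℕ) _)
theorem cnt_N (k : ℕ) : (gN k t).cnt (S := Sg) w = k * w Sy.s + t.cnt w := by
  induction k with
  | zero => simp [gN]
  | succ k ih => rw [gN, cnt_s, ih]; ring

end count

/-- The weights. -/
def wt (B : ℕ) : Sy → ℕ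
  | .z => 3
  | .s => 3
  | .e => 1
  | .c => B
  | .P => 1
  | .n => 2
  | .m => 2
  | .A _ => 1
  | .L => 2
  | .M => 1
  | .Y => 2

theorem wt_pos {B : ℕ} (hB : 10 ≤ B) (f : Sy) : 1 ≤ wt B f := by
  cases f <;> simp only [wt] <;> omega

theorem cnt_pos {B : ℕ} (hB : 10 ≤ B) (t : G) : 1 ≤ t.cnt (S := Sg) (wt B) := by
  obtain ⟨f, a⟩ := t
  have := wt_pos hB f
  simp only [Ground.cnt]
  omega

theorem rt_cnt {K : List CR} {B : ℕ} (hB : 10 ≤ B) (hK : ∀ k ∈ K, ∀ j, 3 * k.be j + 10 ≤ B)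
    {g g' : G} (h : Rt K g g') :
    (∃ i, g = gA i ∧ g' = gA (i + 1)) ∨ g'.cnt (S := Sg) (wt B) < g.cnt (S := Sg) (wt B) := by
  cases h
  case AA i => exact .inl ⟨i, rfl, rfl⟩
  case nm t => right; have := cnt_pos hB t; rw [cnt_n, cnt_m]; simp only [wt]; omega
  case MA t => right; have := cnt_pos hB t; rw [cnt_M, cnt_A]; simp only [wt]; omega
  case PA u v => right; have := cnt_pos hB u; rw [cnt_P, cnt_A]; simp only [wt]; omega
  case PE u => right; have := cnt_pos hB u; rw [cnt_P, cnt_A]; simp only [wt]; omega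
  case YL u v => right; have := cnt_pos hB u; rw [cnt_Y, cnt_L]; simp only [wt]; omega
  case fin k hk x =>
    right
    rw [cnt_c, cnt_P, cnt_e, cnt_s, cnt_z]
    simp only [wt]
    omega
  case err k hk x y h j =>
    right
    have h1 := hK k hk j
    rw [cnt_c, cnt_c, cnt_P, cnt_N]
    have h2 : (y j).cnt (S := Sg) (wt B) ≤ ∑ i, (y i).cnt (S := Sg) (wt B) :=
      Finset.single_le_sum (f := fun i => (y i).cnt (S := Sg) (wt B)) (fun _ _ => Nat.zero_le _)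
        (Finset.mem_univ j)
    have h3 : (gB k x j).cnt (S := Sg) (wt B) ≤ ∑ i, (gB k x i).cnt (S := Sg) (wt B) :=
      Finset.single_le_sum (f := fun i => (gB k x i).cnt (S := Sg) (wt B))
        (fun _ _ => Nat.zero_le _) (Finset.mem_univ j)
    have h4 : (gX k x j).cnt (S := Sg) (wt B) ≤ (gB k x j).cnt (S := Sg) (wt B) := by
      unfold gB
      rw [cnt_N]
      omega
    simp only [wt]
    have : k.be j * 3 = 3 * k.be j := by ring
    omega
  all_goals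
    right
    simp only [cnt_z, cnt_s, cnt_e, cnt_c, cnt_P, cnt_n, cnt_m, cnt_A, cnt_L, cnt_M, cnt_Y, wt]
    omega

/-- One step of the cycle of constants inside a term. -/
def AStep (x y : G) : Prop := ∃ (D : Cx Sg) (i : Fin 5), x = D.fill (gA i) ∧ y = D.fill (gA (i + 1))

theorem st_cnt {K : List CR} {B : ℕ} (hB : 10 ≤ B) (hK : ∀ k ∈ K, ∀ j, 3 * k.be j + 10 ≤ B)
    {x y : G} (h : St K x y) : (AStep x y ∧ y.cnt (S := Sg) (wt B) = x.cnt (S := Sg) (wt B)) ∨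
      y.cnt (S := Sg) (wt B) < x.cnt (S := Sg) (wt B) := by
  obtain ⟨D, g, g', h', rfl, rfl⟩ := step_rt.1 h
  obtain ⟨k, hk⟩ := cnt_fill (S := Sg) (wt B) D
  rcases rt_cnt hB hK h' with ⟨i, rfl, rfl⟩ | h1
  · left
    refine ⟨⟨D, i, rfl, rfl⟩, ?_⟩
    rw [hk, hk, cnt_A, cnt_A]
    rfl
  · right
    rw [hk, hk]
    omega

theorem exists_bound (K : List CR) : ∃ B, 10 ≤ B ∧ ∀ k ∈ K, ∀ j, 3 * k.be j + 10 ≤ B := by
  induction K with
  | nil => exact ⟨10, le_refl _, by simp⟩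
  | cons k K ih =>
    obtain ⟨B, h1, h2⟩ := ih
    refine ⟨B + ∑ j, (3 * k.be j + 10), by omega, ?_⟩
    intro k' hk' j
    rcases List.mem_cons.1 hk' with rfl | hk'
    · have : 3 * k'.be j + 10 ≤ ∑ j, (3 * k'.be j + 10) :=
        Finset.single_le_sum (f := fun j => 3 * k'.be j + 10) (fun _ _ => Nat.zero_le _)
          (Finset.mem_univ j)
      omega
    · have := h2 k' hk' j
      omega

/-- A closed walk of length five starting with the step from `x` to `y`. -/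
def Cyc (K : List CR) (x y : G) : Prop :=
  ∃ w2 w3 w4, St K x y ∧ St K y w2 ∧ St K w2 w3 ∧ St K w3 w4 ∧ St K w4 x

theorem Cyc.astep {K : List CR} {x y : G} (h : Cyc K x y) : AStep x y := by
  obtain ⟨w2, w3, w4, h1, h2, h3, h4, h5⟩ := h
  obtain ⟨B, hB, hK⟩ := exists_bound K
  have f : ∀ {x y : G}, St K x y → y.cnt (S := Sg) (wt B) ≤ x.cnt (S := Sg) (wt B) := fun h => by
    rcases st_cnt hB hK h with h | h
    · exact h.2.le
    · exact h.le
  have g2 := f h2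
  have g3 := f h3
  have g4 := f h4
  have g5 := f h5
  rcases st_cnt hB hK h1 with h | h
  · exact h.1
  · omega

theorem st_A {K : List CR} (D : Cx Sg) (i : Fin 5) :
    St K (D.fill (gA i)) (D.fill (gA (i + 1))) := (Rt.AA i).fill D

theorem cyc_A {K : List CR} (D : Cx Sg) (i : Fin 5) :
    Cyc K (D.fill (gA i)) (D.fill (gA (i + 1))) := by
  refine ⟨_, _, _, st_A D i, st_A D (i + 1), st_A D _, st_A D _, ?_⟩
  have e : i + 1 + 1 + 1 + 1 + 1 = i := by
    revert i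
    decide
  have h := st_A (K := K) D (i + 1 + 1 + 1 + 1)
  rwa [e] at h

/-! ### Classes of symbols -/

def bas : Sy → Prop
  | .z | .s | .e | .c => True
  | _ => False

def noA : Sy → Prop
  | .A _ => False
  | _ => True

def noO : Sy → Prop
  | .L | .M | .Y => False
  | _ => True

def una : Sy → Prop
  | .z | .s | .P | .n | .m | .A _ => True
  | _ => False

section all
variable (p : Sy → Prop) (a : Fin 5 → G) (t u v h : G) (i : Fin 5)

theorem all_z : gz.All (S := Sg) p ↔ p Sy.z := ⟨fun h => h.1, fun h => ⟨h, fun i => Fin.elim0 i⟩⟩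
theorem all_e : ge.All (S := Sg) p ↔ p Sy.e := ⟨fun h => h.1, fun h => ⟨h, fun i => Fin.elim0 i⟩⟩
theorem all_m : gm.All (S := Sg) p ↔ p Sy.m := ⟨fun h => h.1, fun h => ⟨h, fun i => Fin.elim0 i⟩⟩
theorem all_A : (gA i).All (S := Sg) p ↔ p (Sy.A i) :=
  ⟨fun h => h.1, fun h => ⟨h, fun i => Fin.elim0 i⟩⟩
theorem all_s : (gs t).All (S := Sg) p ↔ p Sy.s ∧ t.All p :=
  ⟨fun h => ⟨h.1, h.2 (0 : Fin 1)⟩, fun h => ⟨h.1, fun _ => h.2⟩⟩
theorem all_n : (gn t).All (S := Sg) p ↔ p Sy.n ∧ t.All p :=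
  ⟨fun h => ⟨h.1, h.2 (0 : Fin 1)⟩, fun h => ⟨h.1, fun _ => h.2⟩⟩
theorem all_L : (gL t).All (S := Sg) p ↔ p Sy.L ∧ t.All p :=
  ⟨fun h => ⟨h.1, h.2 (0 : Fin 1)⟩, fun h => ⟨h.1, fun _ => h.2⟩⟩
theorem all_M : (gM t).All (S := Sg) p ↔ p Sy.M ∧ t.All p :=
  ⟨fun h => ⟨h.1, h.2 (0 : Fin 1)⟩, fun h => ⟨h.1, fun _ => h.2⟩⟩
theorem all_P : (gP u v).All (S := Sg) p ↔ p Sy.P ∧ u.All p ∧ v.All p :=
  ⟨fun h => ⟨h.1, h.2 (0 : Fin 2), h.2 (1 : Fin 2)⟩, fun h => ⟨h.1, fun i =>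
    Fin.cases (motive := fun i => Ground.All (S := Sg) p
      ((Fin.cons u (fun _ => v) : Fin 2 → G) i)) h.2.1 (fun _ => h.2.2) (i : Fin 2)⟩⟩
theorem all_Y : (gY u v).All (S := Sg) p ↔ p Sy.Y ∧ u.All p ∧ v.All p :=
  ⟨fun h => ⟨h.1, h.2 (0 : Fin 2), h.2 (1 : Fin 2)⟩, fun h => ⟨h.1, fun i =>
    Fin.cases (motive := fun i => Ground.All (S := Sg) p
      ((Fin.cons u (fun _ => v) : Fin 2 → G) i)) h.2.1 (fun _ => h.2.2) (i : Fin 2)⟩⟩
theorem all_c : (gc a h).All (S := Sg) p ↔ p Sy.c ∧ h.All p ∧ ∀ j, (a j).All p :=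
  ⟨fun H => ⟨H.1, H.2 (0 : Fin 6), fun j => H.2 (j.succ : Fin 6)⟩, fun H => ⟨H.1, fun i =>
    Fin.cases (motive := fun i => Ground.All (S := Sg) p
      ((Fin.cons h a : Fin 6 → G) i)) H.2.1 (fun j => H.2.2 j) (i : Fin 6)⟩⟩
theorem all_N (k : ℕ) (hk : p Sy.s) : (gN k t).All (S := Sg) p ↔ t.All p := by
  induction k with
  | zero => rfl
  | succ k ih => rw [gN, all_s, ih]; exact ⟨fun h => h.2, fun h => ⟨hk, h⟩⟩

end all

theorem all_num {p : Sy → Prop} (hs : p Sy.s) (hz : p Sy.z) (k : ℕ) :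
    (num k).All (S := Sg) p := by
  unfold num
  rw [all_N _ _ _ hs, all_z]
  exact hz

theorem num_succ (k : ℕ) : num (k + 1) = gs (num k) := rfl

end Pool.Agent.Q318.OSR
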