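import Pool.Agent.Q318.OSR.Sound2

set_option autoImplicit false

/-! Completeness: everything else is rejected. -/

namespace Pool.Agent.Q318.OSR

variable {K : List CR}

theorem gN_add (a b : ℕ) (t : G) : gN (a + b) t = gN a (gN b t) := by
  induction a with
  | zero => simp [gN]
  | succ a ih =>
    have : a + 1 + b = (a + b) + 1 := by omega
    rw [this, gN, ih, gN]

theorem num_add (a b : ℕ) : num (a + b) = gN a (num b) := gN_add a b gz

theorem st_s {t t' : G} (h : St K t t') : St K (gs t) (gs t') := by
  have := h.fill (Cx.arg (S := Sg) Sy.s ((fun _ => gz) : Fin 1 → G) (0 : Fin 1) .hole)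
  simp only [Cx.fill] at this
  rw [eta_s, eta_s] at this
  exact this

theorem st_N (k : ℕ) {t t' : G} (h : St K t t') : St K (gN k t) (gN k t') := by
  induction k with
  | zero => exact h
  | succ k ih => exact st_s ih

theorem st_Pl (v : G) {t t' : G} (h : St K t t') : St K (gP t v) (gP t' v) := by
  have := h.fill (Cx.arg (S := Sg) Sy.P ((fun _ => v) : Fin 2 → G) (0 : Fin 2) .hole)
  simp only [Cx.fill] at this
  rw [eta_P, eta_P] at this
  exact this

theorem st_Pr (u : G) {t t' : G} (h : St K t t') : St K (gP u t) (gP u t') := by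
  have := h.fill (Cx.arg (S := Sg) Sy.P ((fun _ => u) : Fin 2 → G) (1 : Fin 2) .hole)
  simp only [Cx.fill] at this
  rw [eta_P, eta_P] at this
  exact this

theorem gam_of {D : Cx Sg} {g : G} {i : Fin 5} (h : Rt K g (gA i)) : Gam K (D.fill g) :=
  ⟨_, _, h.fill D, cyc_A D i⟩

theorem psi_of {D : Cx Sg} {g : G} {a b : ℕ} (h : Rt K g (gP (num a) (num b))) (hab : a ≠ b) :
    Psi K (D.fill g) := by
  have hP : ∀ u v, St K (D.fill (gP u v)) (D.fill (gA 3)) := fun u v => (Rt.PA u v).fill D
  rcases lt_or_gt_of_ne hab with hlt | hlt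
  · obtain ⟨d, rfl⟩ : ∃ d, b = a + (d + 1) := ⟨b - a - 1, by omega⟩
    have e1 : num a = gN a gz := rfl
    rw [num_add, num_succ] at h
    refine ⟨D.fill (gP (num a) (gN a (gs (num d)))), D.fill (gP (num a) (gN a (gn (num d)))),
      D.fill (gP (num a) (gN a gm)), D.fill (gP (gN a gm) (gN a gm)), D.fill (gA 3),
      D.fill (gA (3 + 1)), h.fill D, ?_, ?_, ?_, hP _ _, hP _ _, hP _ _, hP _ _, ?_, cyc_A D 3⟩
    · exact Step.fill D (st_Pr _ (st_N a (Rt.sn _).step))
    · exact Step.fill D (st_Pr _ (st_N a (Rt.nm _).step))
    · exact Step.fill D (st_Pl _ (st_N a Rt.zm.step))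
    · exact (Rt.PE _).fill D
  · obtain ⟨d, rfl⟩ : ∃ d, a = b + (d + 1) := ⟨a - b - 1, by omega⟩
    have e1 : num b = gN b gz := rfl
    rw [num_add, num_succ] at h
    refine ⟨D.fill (gP (gN b (gs (num d))) (num b)), D.fill (gP (gN b (gn (num d))) (num b)),
      D.fill (gP (gN b gm) (num b)), D.fill (gP (gN b gm) (gN b gm)), D.fill (gA 3),
      D.fill (gA (3 + 1)), h.fill D, ?_, ?_, ?_, hP _ _, hP _ _, hP _ _, hP _ _, ?_, cyc_A D 3⟩
    · exact Step.fill D (st_Pl _ (st_N b (Rt.sn _).step))
    · exact Step.fill D (st_Pl _ (st_N b (Rt.nm _).step))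
    · exact Step.fill D (st_Pr _ (st_N b Rt.zm.step))
    · exact (Rt.PE _).fill D

/-- No garbage, no error. -/
def Good (K : List CR) (x : G) : Prop := ∀ (D : Cx Sg) (g : G), x = D.fill g →
  (∀ i, ¬ Rt K g (gA i)) ∧ ∀ a b, Rt K g (gP (num a) (num b)) → a = b

theorem good_of {x : G} (h1 : ¬ Gam K x) (h2 : ¬ Psi K x) : Good K x := by
  rintro D g rfl
  refine ⟨fun i h => h1 (gam_of h), fun a b h => ?_⟩
  by_contra hab
  exact h2 (psi_of h hab)

theorem Good.sub {D : Cx Sg} {g : G} (h : Good K (D.fill g)) : Good K g := by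
  rintro E g' rfl
  exact h (D.comp E) g' (Cx.fill_comp _ _ _).symm

theorem Good.arg {f : Sy} {a : Fin (ari f) → G} (h : Good K (.app (S := Sg) f a)) (i : Fin (ari f)) :
    Good K (a i) := by
  refine Good.sub (D := Cx.arg (S := Sg) f a i .hole) ?_
  simp only [Cx.fill, Function.update_eq_self]
  exact h

theorem Good.rt {x : G} (h : Good K x) (i : Fin 5) : ¬ Rt K x (gA i) := (h .hole x rfl).1 i

/-- Histories. -/
inductive IsH : G → Prop
  | e : IsH ge
  | c (v : Fin 5 → ℕ) (h : G) (hh : IsH h) : IsH (gc (fun j => num (v j)) h)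

theorem good_typed (x : G) (hx : Good K x) : (∃ k, x = num k) ∨ IsH x := by
  induction x with
  | app f a ih =>
    have ih := fun i => ih i (Good.arg hx i)
    cases f with
    | z => rw [eta_z]; exact .inl ⟨0, rfl⟩
    | s =>
      rw [eta_s] at hx ⊢
      rcases ih (0 : Fin 1) with ⟨k, hk⟩ | hk
      · exact .inl ⟨k + 1, by rw [num_succ]; exact congrArg gs hk⟩
      · exfalso
        generalize hy : a (0 : Fin 1) = y at hk hx
        cases hk with
        | e => exact hx.rt _ .se
        | c v h hh => exact hx.rt _ (.sc _ _)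
    | e => rw [eta_e]; exact .inr .e
    | c =>
      rw [eta_c] at hx ⊢
      have h0 := ih (0 : Fin 6)
      have hj : ∀ j : Fin 5, ∃ k, a (j.succ : Fin 6) = num k := by
        intro j
        rcases ih (j.succ : Fin 6) with h | h
        · exact h
        · exfalso
          generalize hy : a (j.succ : Fin 6) = y at h
          cases h with
          | e => exact hx.rt _ (.ce _ _ j hy)
          | c v h hh => exact hx.rt _ (.cc _ _ j _ _ hy)
      choose v hv using hj
      have he : (fun j : Fin 5 => a (j.succ : Fin 6)) = fun j => num (v j) := funext hv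
      have he' : gc (fun j : Fin 5 => a (j.succ : Fin 6)) (a (0 : Fin 6)) =
        gc (fun j => num (v j)) (a (0 : Fin 6)) := by rw [he]
      rw [he'] at hx ⊢
      right
      refine .c v _ ?_
      rcases h0 with ⟨k, hk⟩ | hk
      · exfalso
        rw [hk] at hx
        rcases k with - | k
        · exact hx.rt _ (.cz _)
        · exact hx.rt _ (.cs _ _)
      · exact hk
    | P => rw [eta_P] at hx; exact absurd (.PA _ _) (hx.rt 3)
    | n => rw [eta_n] at hx; exact absurd (.nA _) (hx.rt 3)
    | m => rw [eta_m] at hx; exact absurd .mA (hx.rt 3)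
    | A i => rw [eta_A] at hx; exact absurd (.AA i) (hx.rt (i + 1))
    | L => rw [eta_L] at hx; exact absurd (.LA _) (hx.rt 0)
    | M => rw [eta_M] at hx; exact absurd (.MA _) (hx.rt 2)
    | Y => rw [eta_Y] at hx; exact absurd (.YA _ _) (hx.rt 3)

/-- The machine stops when started with `v`. -/
inductive HL (K : List CR) : (Fin 5 → ℕ) → Prop
  | stop (v : Fin 5 → ℕ) (h : ∀ k ∈ K, ¬ k.mt v) : HL K v
  | step (v : Fin 5 → ℕ) (k : CR) (hk : k ∈ K) (hm : k.mt v) (h : HL K (k.rs v)) : HL K v

/-- The rest of the counters. -/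
def rst (k : CR) (v : Fin 5 → ℕ) : Fin 5 → G := fun j => num (v j - k.al j)

theorem gX_rst {k : CR} {v : Fin 5 → ℕ} (hm : k.mt v) (j : Fin 5) :
    gX k (rst k v) j = num (v j - k.al j) := by
  unfold gX rst
  split_ifs with h
  · rw [(hm j).2 h, Nat.sub_self]
    rfl
  · rfl

theorem gB_rst {k : CR} {v : Fin 5 → ℕ} (hm : k.mt v) : gB k (rst k v) = fun j => num (v j) := by
  funext j
  unfold gB
  rw [gX_rst hm, ← num_add]
  congr 1
  have := (hm j).1
  omega

theorem hl_of_good {x : G} (hx : IsH x) (hg : Good K x) :
    ∀ (v : Fin 5 → ℕ) (h : G), x = gc (fun j => num (v j)) h → HL K v := by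
  induction hx with
  | e => intro v h e; exact absurd (congrArg Ground.head e) (by simp)
  | c v0 h0 hh ih =>
    intro v h e
    obtain ⟨e1, e2⟩ := gc_inj e
    rw [e] at hg
    subst e2
    by_cases hex : ∃ k ∈ K, k.mt v
    · obtain ⟨k, hk, hm⟩ := hex
      have e3 := gB_rst hm
      cases hh with
      | e =>
        exfalso
        have h1 := Rt.fin k hk (rst k v)
        rw [e3] at h1
        exact absurd ((hg .hole _ rfl).2 0 1 h1) (by decide)
      | c v' h' hh' =>
        have hv : k.rs v = v' := by
          funext j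
          have h1 := Rt.err k hk (rst k v) (fun j => num (v' j)) h' j
          rw [e3, gX_rst hm, ← num_add] at h1
          exact (hg .hole _ rfl).2 _ _ h1
        refine .step v k hk hm ?_
        rw [hv]
        refine ih ?_ v' h' rfl
        refine Good.sub (D := Cx.arg (S := Sg) Sy.c (Fin.cons gz (fun j => num (v j)) : Fin 6 → G)
          (0 : Fin 6) .hole) ?_
        have : Cx.fill (Cx.arg (S := Sg) Sy.c (Fin.cons gz (fun j => num (v j)) : Fin 6 → G)
          (0 : Fin 6) .hole) (gc (fun j => num (v' j)) h') =
            gc (fun j => num (v j)) (gc (fun j => num (v' j)) h') := by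
          simp only [Cx.fill]
          rw [eta_c]
          congr 1
        rw [this]
        exact hg
    · push Not at hex
      exact .stop v hex

/-! ### Correct histories exist -/

theorem num_inj {a b : ℕ} (h : num a = num b) : a = b := by
  have := congrArg (Ground.cnt (S := Sg) wS) h
  unfold num at this
  rw [cnt_N, cnt_N] at this
  simp only [wS] at this
  omega

theorem num_fill {n : ℕ} {D : Cx Sg} {g : G} (h : num n = D.fill g) : ∃ k, g = num k := by
  induction D generalizing n with
  | hole => exact ⟨n, h.symm⟩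
  | arg f a i D ih =>
    rcases n with - | n
    · unfold num gN gz at h
      simp only [Cx.fill] at h
      injection h with h1 h2
      subst h1
      exact Fin.elim0 i
    · rw [num_succ] at h
      unfold gs at h
      simp only [Cx.fill] at h
      injection h with h1 h2
      subst h1
      have h2 := congrFun (eq_of_heq h2) i
      rw [Function.update_self] at h2
      exact ih h2

theorem rt_num {n : ℕ} {g : G} (h : Rt K (num n) g) : Res g := by
  rcases n with - | n
  · generalize hl : num 0 = l at h
    cases h with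
    | zm => exact .inr (.inl rfl)
    | Lx t => exact absurd (congrArg Ground.head hl) (by simp [num, gN])
    | _ => exact absurd (congrArg Ground.head hl) (by simp [num, gN])
  · generalize hl : num (n + 1) = l at h
    rw [num_succ] at hl
    cases h with
    | sn t => exact .inl ⟨n, by rw [gs_inj hl]⟩
    | se =>
      have := gs_inj hl
      rcases n with - | n <;> exact absurd (congrArg Ground.head this) (by simp [num, gN])
    | sc a h =>
      have := gs_inj hl
      rcases n with - | n <;> exact absurd (congrArg Ground.head this) (by simp [num, gN])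
    | Lx t => exact absurd (congrArg Ground.head hl) (by simp)
    | _ => exact absurd (congrArg Ground.head hl) (by simp)

theorem gN_eq_num {a n : ℕ} {t : G} (h : gN a t = num n) : a ≤ n ∧ t = num (n - a) := by
  induction a generalizing n with
  | zero => exact ⟨Nat.zero_le _, h⟩
  | succ a ih =>
    rcases n with - | n
    · exact absurd (congrArg Ground.head h) (by simp [num, gN])
    · rw [num_succ, gN] at h
      obtain ⟨h1, h2⟩ := ih (gs_inj h)
      refine ⟨by omega, ?_⟩
      rw [h2]
      congr 1
      omega

theorem mt_of_gB {k : CR} {x : Fin 5 → G} {v : Fin 5 → ℕ} (h : gB k x = fun j => num (v j)) :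
    k.mt v ∧ ∀ j, gX k x j = num (v j - k.al j) := by
  have h1 : ∀ j, k.al j ≤ v j ∧ gX k x j = num (v j - k.al j) := fun j =>
    gN_eq_num (congrFun h j)
  refine ⟨fun j => ⟨(h1 j).1, fun he => ?_⟩, fun j => (h1 j).2⟩
  have h2 := (h1 j).2
  unfold gX at h2
  rw [if_pos he] at h2
  have h3 : num 0 = num (v j - k.al j) := h2
  have h4 := num_inj h3
  have h5 := (h1 j).1
  omega

theorem valid_e : Valid K ge where
  bas := (all_e _).2 trivial
  ok := ok_e
  red := by
    intro D g g' h h'
    exfalso
    cases D with
    | hole =>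
      change ge = g at h
      generalize hl : g = l at h'
      rw [← h] at hl
      cases h' with
      | Lx t => exact absurd (congrArg Ground.head hl) (by simp)
      | _ => exact absurd (congrArg Ground.head hl) (by simp)
    | arg f a i D =>
      unfold ge at h
      simp only [Cx.fill] at h
      injection h with h1 h2
      subst h1
      exact Fin.elim0 i

/-- Correct link. -/
def Link (K : List CR) (v : Fin 5 → ℕ) (h : G) : Prop :=
  (h = ge ∧ ∀ k ∈ K, ¬ k.mt v) ∨
    ∃ (v' : Fin 5 → ℕ) (h' : G), h = gc (fun j => num (v' j)) h' ∧ ∀ k ∈ K, k.mt v → k.rs v = v'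

theorem Link.head {v : Fin 5 → ℕ} {h : G} (H : Link K v h) : h.head = Sy.e ∨ h.head = Sy.c := by
  rcases H with ⟨rfl, -⟩ | ⟨v', h', rfl, -⟩
  · exact .inl rfl
  · exact .inr rfl

theorem valid_c {v : Fin 5 → ℕ} {h : G} (hh : Valid K h) (hl : Link K v h) :
    Valid K (gc (fun j => num (v j)) h) where
  bas := (all_c _ _ _).2 ⟨trivial, hh.bas, fun j => all_num trivial trivial _⟩
  ok := by
    rw [ok_c]
    refine ⟨⟨?_, hh.ok⟩, fun j => ⟨?_, ok_num _⟩⟩
    · rcases hl.head with h | h <;> rw [h] <;> exact fun h => h rfl
    · rcases v j with - | n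
      · exact one_ne_zero
      · exact one_ne_zero
  red := by
    intro D g g' e h'
    cases D with
    | hole =>
      change gc _ _ = g at e
      subst e
      generalize hx : gc (fun j => num (v j)) h = x at h'
      cases h' with
      | cz a =>
        rcases hl.head with h | h <;> rw [(gc_inj hx).2] at h <;> exact absurd h (by simp)
      | cs a t =>
        rcases hl.head with h | h <;> rw [(gc_inj hx).2] at h <;> exact absurd h (by simp)
      | ce a h j ha =>
        have := congrFun (gc_inj hx).1 j
        rw [ha] at this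
        rcases hv : v j with - | n <;> rw [hv] at this <;>
          exact absurd (congrArg Ground.head this) (by simp [num, gN])
      | cc a h j a' h' ha =>
        have := congrFun (gc_inj hx).1 j
        rw [ha] at this
        rcases hv : v j with - | n <;> rw [hv] at this <;>
          exact absurd (congrArg Ground.head this) (by simp [num, gN])
      | fin k hk x =>
        exfalso
        obtain ⟨h1, h2⟩ := gc_inj hx
        have h3 := mt_of_gB h1.symm
        rcases hl with ⟨-, h4⟩ | ⟨v', h', h4, -⟩
        · exact h4 k hk h3.1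
        · rw [h2] at h4
          exact absurd (congrArg Ground.head h4) (by simp)
      | err k hk x y h'' j =>
        obtain ⟨h1, h2⟩ := gc_inj hx
        have h3 := mt_of_gB h1.symm
        rcases hl with ⟨h4, -⟩ | ⟨v', h', h4, h5⟩
        · rw [h2] at h4
          exact absurd (congrArg Ground.head h4) (by simp)
        · right; right
          rw [h2] at h4
          obtain ⟨h6, -⟩ := gc_inj h4
          have h7 := h5 k hk h3.1
          refine ⟨v' j, ?_⟩
          rw [h3.2 j, ← num_add, h6, ← h7]
          rfl
      | Lx t => exact absurd (congrArg Ground.head hx) (by simp)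
      | _ => exact absurd (congrArg Ground.head hx) (by simp)
    | arg f a i D =>
      unfold gc at e
      simp only [Cx.fill] at e
      injection e with e1 e2
      subst e1
      have e2 := congrFun (eq_of_heq e2) i
      rw [Function.update_self] at e2
      revert e2
      refine Fin.cases (motive := fun i => (Fin.cons h (fun j => num (v j)) : Fin 6 → G) i =
        D.fill g → _) (fun e2 => ?_) (fun j e2 => ?_) (i : Fin 6)
      · exact hh.red D g g' e2 h'
      · obtain ⟨k, rfl⟩ := num_fill e2
        exact rt_num h'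

theorem exists_valid (hdet : ∀ v, ∀ k ∈ K, ∀ k' ∈ K, k.mt v → k'.mt v → k.rs v = k'.rs v)
    {v : Fin 5 → ℕ} (h : HL K v) : ∃ h', Valid K (gc (fun j => num (v j)) h') := by
  induction h with
  | stop v h => exact ⟨ge, valid_c valid_e (.inl ⟨rfl, h⟩)⟩
  | step v k hk hm _ ih =>
    obtain ⟨h', hv⟩ := ih
    exact ⟨_, valid_c hv (.inr ⟨_, _, rfl, fun k' hk' hm' => hdet v k' hk' k hk hm' hm⟩)⟩

end Pool.Agent.Q318.OSR
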