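import Pool.Agent.Q318.OSR.Defs

set_option autoImplicit false

/-! Contexts. -/

namespace Pool.Agent.Q318.OSR

variable {S : Signature}

/-- Ground terms with a hole. -/
inductive Cx (S : Signature) : Type
  | hole : Cx S
  | arg : (f : S.Sym) → (Fin (S.ar f) → Ground S) → Fin (S.ar f) → Cx S → Cx S

/-- Fill the hole. -/
def Cx.fill : Cx S → Ground S → Ground S
  | .hole, t => t
  | .arg f a i D, t => .app f (Function.update a i (D.fill t))

/-- Composition of contexts. -/
def Cx.comp : Cx S → Cx S → Cx S
  | .hole, E => E
  | .arg f a i D, E => .arg f a i (D.comp E)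

theorem Cx.fill_comp (D E : Cx S) (t : Ground S) : (D.comp E).fill t = D.fill (E.fill t) := by
  induction D with
  | hole => rfl
  | arg f a i D ih => simp only [Cx.comp, Cx.fill, ih]

theorem Step.fill {R : List (Term S × Term S)} {x y : Ground S} (D : Cx S) (h : Step R x y) :
    Step R (D.fill x) (D.fill y) := by
  induction D with
  | hole => exact h
  | arg f a i D ih =>
    have h1 := Step.arg f (Function.update a i (D.fill x)) i (D.fill y)
      (by rw [Function.update_self]; exact ih)
    rw [Function.update_idem] at h1
    exact h1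

theorem step_iff {R : List (Term S × Term S)} {x y : Ground S} :
    Step R x y ↔ ∃ (D : Cx S) (ρ : Term S × Term S) (_ : ρ ∈ R) (σ : ℕ → Ground S),
      x = D.fill (ρ.1.inst σ) ∧ y = D.fill (ρ.2.inst σ) := by
  constructor
  · intro h
    induction h with
    | root ρ hρ σ => exact ⟨.hole, ρ, hρ, σ, rfl, rfl⟩
    | arg f a i t h ih =>
      obtain ⟨D, ρ, hρ, σ, h1, h2⟩ := ih
      refine ⟨.arg f a i D, ρ, hρ, σ, ?_, ?_⟩
      · simp only [Cx.fill, ← h1, Function.update_eq_self]
      · simp only [Cx.fill, ← h2]
  · rintro ⟨D, ρ, hρ, σ, rfl, rfl⟩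
    exact (Step.root ρ hρ σ).fill D

/-- The root symbol. -/
def Ground.head : Ground S → S.Sym
  | .app f _ => f

/-- All symbols of the term satisfy `p`. -/
def Ground.All (p : S.Sym → Prop) : Ground S → Prop
  | .app f a => p f ∧ ∀ i, (a i).All p

/-- All symbols of the context satisfy `p`. -/
def Cx.All (p : S.Sym → Prop) : Cx S → Prop
  | .hole => True
  | .arg f a i D => p f ∧ (∀ j, j ≠ i → (a j).All p) ∧ D.All p

theorem Ground.All.head {p : S.Sym → Prop} {t : Ground S} (h : t.All p) : p t.head := by
  obtain ⟨f, a⟩ := t
  exact h.1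

theorem Ground.All.mono {p q : S.Sym → Prop} (hpq : ∀ f, p f → q f) {t : Ground S}
    (h : t.All p) : t.All q := by
  induction t with
  | app f a ih => exact ⟨hpq _ h.1, fun i => ih i (h.2 i)⟩

theorem all_fill (p : S.Sym → Prop) (D : Cx S) (t : Ground S) :
    (D.fill t).All p ↔ D.All p ∧ t.All p := by
  induction D with
  | hole => simp [Cx.fill, Cx.All]
  | arg f a i D ih =>
    simp only [Cx.fill, Ground.All, Cx.All]
    constructor
    · rintro ⟨h1, h2⟩
      have h3 := h2 i
      rw [Function.update_self, ih] at h3
      refine ⟨⟨h1, ?_, h3.1⟩, h3.2⟩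
      intro j hj
      have := h2 j
      rwa [Function.update_of_ne hj] at this
    · rintro ⟨⟨h1, h2, h3⟩, h4⟩
      refine ⟨h1, fun j => ?_⟩
      by_cases hj : j = i
      · subst hj
        rw [Function.update_self, ih]
        exact ⟨h3, h4⟩
      · rw [Function.update_of_ne hj]
        exact h2 j hj

theorem fill_inj (D : Cx S) {g g' : Ground S} (h : D.fill g = D.fill g') : g = g' := by
  induction D with
  | hole => exact h
  | arg f a i D ih =>
    apply ih
    simp only [Cx.fill, Ground.app.injEq, heq_eq_eq, true_and] at h
    have := congrFun h i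
    rwa [Function.update_self, Function.update_self] at this

/-- A subterm with a root symbol outside `p` in a context with symbols from `p` lies in the hole. -/
theorem fill_eq_fill {p : S.Sym → Prop} (D : Cx S) (hD : D.All p) (E : Cx S) (g g' : Ground S)
    (hg' : ¬ p g'.head) (h : D.fill g = E.fill g') :
    ∃ E' : Cx S, (∀ t, E.fill t = D.fill (E'.fill t)) ∧ g = E'.fill g' := by
  induction D generalizing E with
  | hole => exact ⟨E, fun _ => rfl, h⟩
  | arg f a i D ih =>
    cases E with
    | hole =>
      exfalso
      apply hg'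
      change Cx.fill (.arg f a i D) g = g' at h
      rw [← h]
      exact hD.1
    | arg f' a' i' E =>
      simp only [Cx.fill, Ground.app.injEq] at h
      obtain ⟨rfl, h⟩ := h
      have h := eq_of_heq h
      by_cases hi : i = i'
      · subst hi
        have h1 := congrFun h i
        rw [Function.update_self, Function.update_self] at h1
        obtain ⟨E', h2, h3⟩ := ih hD.2.2 E h1
        refine ⟨E', fun t => ?_, h3⟩
        simp only [Cx.fill, Ground.app.injEq, heq_eq_eq, true_and, h2]
        funext j
        by_cases hj : j = i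
        · subst hj
          rw [Function.update_self, Function.update_self]
        · have h4 := congrFun h j
          rw [Function.update_of_ne hj, Function.update_of_ne hj] at h4
          rw [Function.update_of_ne hj, Function.update_of_ne hj, h4]
      · exfalso
        have h1 := congrFun h i'
        rw [Function.update_self, Function.update_of_ne (Ne.symm hi)] at h1
        have h2 := hD.2.1 i' (Ne.symm hi)
        rw [h1, all_fill] at h2
        exact hg' h2.2.head

/-- Weighted number of symbols. -/
def Ground.cnt (w : S.Sym → ℕ) : Ground S → ℕ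
  | .app f a => w f + ∑ i, (a i).cnt w

theorem cnt_fill (w : S.Sym → ℕ) (D : Cx S) : ∃ k, ∀ t, (D.fill t).cnt w = k + t.cnt w := by
  induction D with
  | hole => exact ⟨0, fun t => by simp [Cx.fill]⟩
  | arg f a i D ih =>
    obtain ⟨k, hk⟩ := ih
    refine ⟨w f + k + ∑ j ∈ Finset.univ.erase i, (a j).cnt w, fun t => ?_⟩
    simp only [Cx.fill, Ground.cnt]
    rw [← Finset.add_sum_erase _ _ (Finset.mem_univ i), Function.update_self, hk]
    have : ∑ x ∈ Finset.univ.erase i, (Function.update a i (D.fill t) x).cnt w =
        ∑ j ∈ Finset.univ.erase i, (a j).cnt w := by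
      apply Finset.sum_congr rfl
      intro j hj
      rw [Function.update_of_ne (Finset.ne_of_mem_erase hj)]
    rw [this]
    omega

end Pool.Agent.Q318.OSR
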