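import Mathlib

set_option autoImplicit false

/-! Term rewriting: signatures, ground terms, rules, one-step rewriting, and positive formulas. -/

namespace Pool.Agent.Q318.OSR

/-- A signature: function symbols with arities. -/
structure Signature where
  Sym : Type
  ar : Sym → ℕ

/-- Terms over a signature and the variables `x_0, x_1, …`. -/
inductive Term (S : Signature) : Type
  | var : ℕ → Term S
  | app : (f : S.Sym) → (Fin (S.ar f) → Term S) → Term S

/-- Ground terms over a signature. -/
inductive Ground (S : Signature) : Type
  | app : (f : S.Sym) → (Fin (S.ar f) → Ground S) → Ground S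

/-- The ground instance of a term under a substitution. -/
def Term.inst {S : Signature} (σ : ℕ → Ground S) : Term S → Ground S
  | .var i => σ i
  | .app f a => .app f fun i => (a i).inst σ

/-- The variable `x` occurs in the term. -/
def Term.Occurs {S : Signature} (x : ℕ) : Term S → Prop
  | .var i => i = x
  | .app _ a => ∃ i, (a i).Occurs x

/-- `(l, r)` is a rewrite rule: `l` is not a variable and every variable of `r` occurs in `l`. -/
def IsRule {S : Signature} (ρ : Term S × Term S) : Prop :=
  (∀ i, ρ.1 ≠ .var i) ∧ ∀ x, ρ.2.Occurs x → ρ.1.Occurs x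

/-- One-step rewriting of ground terms by the rules `R`, at the root or inside an argument. -/
inductive Step {S : Signature} (R : List (Term S × Term S)) : Ground S → Ground S → Prop
  | root (ρ : Term S × Term S) (hρ : ρ ∈ R) (σ : ℕ → Ground S) :
      Step R (ρ.1.inst σ) (ρ.2.inst σ)
  | arg (f : S.Sym) (a : Fin (S.ar f) → Ground S) (i : Fin (S.ar f)) (t : Ground S)
      (h : Step R (a i) t) : Step R (.app f a) (.app f (Function.update a i t))

/-- Positive first-order formulas in the language with equality and one binary relation. -/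
inductive Pos : Type
  | eq : ℕ → ℕ → Pos
  | step : ℕ → ℕ → Pos
  | and : Pos → Pos → Pos
  | or : Pos → Pos → Pos
  | ex : ℕ → Pos → Pos
  | all : ℕ → Pos → Pos

/-- Truth of a positive formula in the structure `(X, r)` under an assignment of the variables. -/
def Pos.Holds {X : Type} (r : X → X → Prop) : (ℕ → X) → Pos → Prop
  | v, .eq i j => v i = v j
  | v, .step i j => r (v i) (v j)
  | v, .and φ ψ => φ.Holds r v ∧ ψ.Holds r v
  | v, .or φ ψ => φ.Holds r v ∨ ψ.Holds r v
  | v, .ex i φ => ∃ x : X, φ.Holds r (Function.update v i x)
  | v, .all i φ => ∀ x : X, φ.Holds r (Function.update v i x)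

/-- The free variables. -/
def Pos.free : Pos → Finset ℕ
  | .eq i j => {i, j}
  | .step i j => {i, j}
  | .and φ ψ => φ.free ∪ ψ.free
  | .or φ ψ => φ.free ∪ ψ.free
  | .ex i φ => φ.free.erase i
  | .all i φ => φ.free.erase i

/-- Sentences are formulas without free variables. -/
def Pos.IsSentence (φ : Pos) : Prop := φ.free = ∅

/-- Goedel numbers. -/
def Pos.code : Pos → ℕ
  | .eq i j => Nat.pair 0 (Nat.pair i j)
  | .step i j => Nat.pair 1 (Nat.pair i j)
  | .and φ ψ => Nat.pair 2 (Nat.pair φ.code ψ.code)
  | .or φ ψ => Nat.pair 3 (Nat.pair φ.code ψ.code)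
  | .ex i φ => Nat.pair 4 (Nat.pair i φ.code)
  | .all i φ => Nat.pair 5 (Nat.pair i φ.code)

/-- The sentence is true in the structure of ground terms with one-step rewriting. -/
def Pos.IsTrue {S : Signature} (R : List (Term S × Term S)) (φ : Pos) : Prop :=
  ∀ v : ℕ → Ground S, φ.Holds (Step R) v

end Pool.Agent.Q318.OSR
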