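import Pool.Agent.Q318.OSR.Mach

set_option autoImplicit false

/-! The sentences. -/

namespace Pool.Agent.Q318.OSR

variable {K : List CR}

/-- From `M(t)` (variable 6) to `M(t')` (again variable 6). -/
def fF (φ : Pos) : Pos :=
  .ex 7 (.ex 8 (.ex 9 (.and (.step 7 6) (.and (.step 7 2) (.and (.step 7 8) (.and (.step 8 1)
    (.and (.step 8 9) (.and (.step 9 3) (.ex 6 (.and (.eq 6 9) φ))))))))))

/-- The number is not `n`. -/
def fNe : ℕ → Pos
  | 0 => fF (.eq 6 6)
  | n + 1 => .or (.step 6 5) (fF (fNe n))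

def fNI (n : ℕ) : Pos :=
  .ex 6 (.and (.ex 8 (.and (.step 8 0) (.and (.step 8 1) (.and (.step 8 6) (.step 6 3)))))
    (.or (.step 6 4) (fF (fNe n))))

def fAA : Pos :=
  .and (.all 0 (.ex 7 (.and (.step 7 0) (.step 7 1))))
    (.and (.step 1 2) (.and (.step 2 3) (.and (.step 3 4) (.and (.step 4 5) (.step 5 1)))))

def fCyc : Pos :=
  .ex 16 (.ex 17 (.ex 18 (.and (.step 14 15) (.and (.step 15 16) (.and (.step 16 17)
    (.and (.step 17 18) (.step 18 14)))))))

def fGam : Pos := .ex 14 (.ex 15 (.and (.step 0 14) fCyc))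

def fPsi : Pos :=
  .ex 10 (.ex 11 (.ex 12 (.ex 13 (.ex 14 (.ex 15 (.and (.step 0 10) (.and (.step 10 11)
    (.and (.step 11 12) (.and (.step 12 13) (.and (.step 10 14) (.and (.step 11 14)
    (.and (.step 12 14) (.and (.step 13 14) (.and (.step 13 15) fCyc))))))))))))))

/-- The sentence for `n`. -/
def fPhi (n : ℕ) : Pos :=
  .ex 1 (.ex 2 (.ex 3 (.ex 4 (.ex 5 (.and fAA (.all 0 (.or fGam (.or fPsi (fNI n)))))))))

/-! ### Semantics -/

/-- The variables 1 to 5 have the right values. -/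
def Env (v : ℕ → G) : Prop := v 1 = gA 0 ∧ v 2 = gA 1 ∧ v 3 = gA 2 ∧ v 4 = gA 3 ∧ v 5 = gA 4

theorem Env.update {v : ℕ → G} (h : Env v) {i : ℕ} (hi : i = 0 ∨ 6 ≤ i) (x : G) :
    Env (Function.update v i x) := by
  obtain ⟨h1, h2, h3, h4, h5⟩ := h
  unfold Env
  rw [Function.update_of_ne (by omega), Function.update_of_ne (by omega),
    Function.update_of_ne (by omega), Function.update_of_ne (by omega),
    Function.update_of_ne (by omega)]
  exact ⟨h1, h2, h3, h4, h5⟩

theorem holds_fF {v : ℕ → G} (hv : Env v) (φ : Pos) {p : G → Prop}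
    (hφ : ∀ v' : ℕ → G, Env v' → (φ.Holds (St K) v' ↔ p (v' 6))) :
    (fF φ).Holds (St K) v ↔ ∃ m', LinkR K (v 6) m' ∧ p m' := by
  have hv' := hv
  obtain ⟨h1, h2, h3, h4, h5⟩ := hv'
  unfold fF LinkR
  simp only [Pos.Holds]
  constructor
  · rintro ⟨y, l, m, h⟩
    simp [Function.update, h1, h2, h3] at h
    obtain ⟨a1, a2, a3, a4, a5, a6, a7⟩ := h
    refine ⟨m, ⟨y, l, a1, a2, a3, a4, a5, a6⟩, ?_⟩
    have := (hφ _ ?_).1 a7
    · simpa using this
    · unfold Env
      simp [h1, h2, h3, h4, h5]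
  · rintro ⟨m, ⟨y, l, a1, a2, a3, a4, a5, a6⟩, a7⟩
    refine ⟨y, l, m, ?_⟩
    have e : Env (Function.update (Function.update (Function.update (Function.update v 7 y) 8 l) 9 m)
        6 m) :=
      (((hv.update (.inr (by norm_num)) y).update (.inr (by norm_num)) l).update
        (.inr (by norm_num)) m).update (.inr (by norm_num)) m
    refine ⟨?_, ?_, ?_, ?_, ?_, ?_, m, ?_, (hφ _ e).2 ?_⟩
    · simpa [Function.update] using a1
    · simpa [Function.update, h2] using a2
    · simpa [Function.update] using a3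
    · simpa [Function.update, h1] using a4
    · simpa [Function.update] using a5
    · simpa [Function.update, h3] using a6
    · simp [Function.update]
    · simpa [Function.update] using a7

theorem holds_fNe (n : ℕ) : ∀ v : ℕ → G, Env v → ((fNe n).Holds (St K) v ↔ NeP K n (v 6)) := by
  induction n with
  | zero =>
    intro v hv
    unfold fNe NeP
    rw [holds_fF hv (.eq 6 6) (p := fun _ => True) (fun v' _ => by simp [Pos.Holds])]
    simp
  | succ n ih =>
    intro v hv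
    unfold fNe NeP
    simp only [Pos.Holds]
    rw [holds_fF hv _ ih, hv.2.2.2.2]

theorem holds_fNI (n : ℕ) {v : ℕ → G} (hv : Env v) :
    (fNI n).Holds (St K) v ↔ NI K n (v 0) := by
  unfold fNI NI Start
  simp only [Pos.Holds]
  refine exists_congr fun m => ?_
  have e := hv.update (i := 6) (.inr (by norm_num)) m
  rw [holds_fF e _ (holds_fNe n)]
  obtain ⟨h1, h2, h3, h4, h5⟩ := hv
  simp [Function.update, h1, h3, h4]

theorem holds_fGam (v : ℕ → G) : fGam.Holds (St K) v ↔ Gam K (v 0) := by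
  unfold fGam fCyc Gam Cyc
  simp [Pos.Holds, Function.update]

theorem holds_fPsi (v : ℕ → G) : fPsi.Holds (St K) v ↔ Psi K (v 0) := by
  unfold fPsi fCyc Psi Cyc
  simp [Pos.Holds, Function.update]

theorem holds_fAA (v : ℕ → G) :
    fAA.Holds (St K) v ↔ AA K fun i => v (i + 1) := by
  unfold fAA AA
  simp [Pos.Holds, Function.update]

theorem fPhi_true (hdet : ∀ v, ∀ k ∈ K, ∀ k' ∈ K, k.mt v → k'.mt v → k.rs v = k'.rs v) (n : ℕ) :
    (fPhi n).IsTrue (RR K) ↔ ¬ HL K (init n) := by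
  rw [← main_iff hdet n]
  have key : ∀ v : ℕ → G, (fPhi n).Holds (St K) v ↔ ∀ x, Gam K x ∨ Psi K x ∨ NI K n x := by
    intro v
    unfold fPhi
    simp only [Pos.Holds]
    constructor
    · rintro ⟨a1, a2, a3, a4, a5, h1, h2⟩ x
      rw [holds_fAA, AA_iff] at h1
      have h2 := h2 x
      rw [holds_fGam, holds_fPsi, holds_fNI] at h2
      · simpa using h2
      · refine Env.update ?_ (.inl rfl) x
        exact ⟨congrFun h1 0, congrFun h1 1, congrFun h1 2, congrFun h1 3, congrFun h1 4⟩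
    · intro h
      refine ⟨gA 0, gA 1, gA 2, gA 3, gA 4, ?_, fun x => ?_⟩
      · rw [holds_fAA, AA_iff]
        funext i
        fin_cases i <;> simp [Function.update]
      · rw [holds_fGam, holds_fPsi, holds_fNI]
        · simpa using h x
        · refine Env.update ?_ (.inl rfl) x
          unfold Env
          simp [Function.update]
  unfold Pos.IsTrue
  constructor
  · intro h
    exact (key (fun _ => gz)).1 (h _)
  · intro h v
    exact (key v).2 h

/-! ### The formulas are sentences -/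

theorem free_fF {φ : Pos} (h : φ.free ⊆ {1, 2, 3, 4, 5, 6}) :
    (fF φ).free ⊆ {1, 2, 3, 4, 5, 6} := by
  unfold fF
  simp only [Pos.free]
  intro x hx
  simp only [Finset.mem_erase, Finset.mem_union, Finset.mem_insert, Finset.mem_singleton] at hx
  have h1 : x ∈ φ.free → x = 1 ∨ x = 2 ∨ x = 3 ∨ x = 4 ∨ x = 5 ∨ x = 6 := fun h' => by
    have := h h'
    simpa using this
  simp only [Finset.mem_insert, Finset.mem_singleton]
  tauto

theorem free_fNe (n : ℕ) : (fNe n).free ⊆ {1, 2, 3, 4, 5, 6} := by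
  induction n with
  | zero =>
    refine free_fF ?_
    simp [Pos.free]
  | succ n ih =>
    unfold fNe
    simp only [Pos.free]
    refine Finset.union_subset ?_ (free_fF ih)
    intro x hx
    simp only [Finset.mem_insert, Finset.mem_singleton] at hx ⊢
    tauto

theorem fPhi_sentence (n : ℕ) : (fPhi n).IsSentence := by
  unfold Pos.IsSentence
  rw [Finset.eq_empty_iff_forall_notMem]
  intro x hx
  unfold fPhi fAA fGam fPsi fCyc fNI at hx
  simp only [Pos.free, Finset.mem_erase, Finset.mem_union, Finset.mem_insert,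
    Finset.mem_singleton] at hx
  have h1 : x ∈ (fF (fNe n)).free → x = 1 ∨ x = 2 ∨ x = 3 ∨ x = 4 ∨ x = 5 ∨ x = 6 := fun h' => by
    have := free_fF (free_fNe n) h'
    simpa using this
  by_cases hm : x ∈ (fF (fNe n)).free
  · have h2 := h1 hm
    rcases h2 with h2 | h2 | h2 | h2 | h2 | h2 <;> subst h2 <;> revert hx <;> simp
  · simp only [hm, or_false] at hx
    omega

/-! ### The codes are computable -/

theorem prim_pair {f : ℕ → ℕ} (c : ℕ) (hf : Primrec f) : Primrec fun x => Nat.pair c (f x) :=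
  Primrec₂.natPair.comp (Primrec.const c) hf

theorem prim_ex (i : ℕ) {F : Pos → Pos} (h : ∃ f : ℕ → ℕ, Primrec f ∧ ∀ φ, (F φ).code = f φ.code) :
    ∃ f : ℕ → ℕ, Primrec f ∧ ∀ φ, (Pos.ex i (F φ)).code = f φ.code := by
  obtain ⟨f, hf, h⟩ := h
  exact ⟨fun x => Nat.pair 4 (Nat.pair i (f x)), prim_pair 4 (prim_pair i hf), fun φ => by
    simp only [Pos.code, h]⟩

theorem prim_all (i : ℕ) {F : Pos → Pos} (h : ∃ f : ℕ → ℕ, Primrec f ∧ ∀ φ, (F φ).code = f φ.code) :
    ∃ f : ℕ → ℕ, Primrec f ∧ ∀ φ, (Pos.all i (F φ)).code = f φ.code := by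
  obtain ⟨f, hf, h⟩ := h
  exact ⟨fun x => Nat.pair 5 (Nat.pair i (f x)), prim_pair 5 (prim_pair i hf), fun φ => by
    simp only [Pos.code, h]⟩

theorem prim_and (ψ : Pos) {F : Pos → Pos}
    (h : ∃ f : ℕ → ℕ, Primrec f ∧ ∀ φ, (F φ).code = f φ.code) :
    ∃ f : ℕ → ℕ, Primrec f ∧ ∀ φ, (Pos.and ψ (F φ)).code = f φ.code := by
  obtain ⟨f, hf, h⟩ := h
  exact ⟨fun x => Nat.pair 2 (Nat.pair ψ.code (f x)), prim_pair 2 (prim_pair _ hf), fun φ => by
    simp only [Pos.code, h]⟩

theorem prim_or (ψ : Pos) {F : Pos → Pos}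
    (h : ∃ f : ℕ → ℕ, Primrec f ∧ ∀ φ, (F φ).code = f φ.code) :
    ∃ f : ℕ → ℕ, Primrec f ∧ ∀ φ, (Pos.or ψ (F φ)).code = f φ.code := by
  obtain ⟨f, hf, h⟩ := h
  exact ⟨fun x => Nat.pair 3 (Nat.pair ψ.code (f x)), prim_pair 3 (prim_pair _ hf), fun φ => by
    simp only [Pos.code, h]⟩

theorem prim_id : ∃ f : ℕ → ℕ, Primrec f ∧ ∀ φ : Pos, φ.code = f φ.code :=
  ⟨id, Primrec.id, fun _ => rfl⟩

theorem prim_fF : ∃ f : ℕ → ℕ, Primrec f ∧ ∀ φ, (fF φ).code = f φ.code :=
  prim_ex 7 (prim_ex 8 (prim_ex 9 (prim_and _ (prim_and _ (prim_and _ (prim_and _ (prim_and _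
    (prim_and _ (prim_ex 6 (prim_and _ prim_id)))))))))) 

theorem prim_comp {F F' : Pos → Pos} (h : ∃ f : ℕ → ℕ, Primrec f ∧ ∀ φ, (F φ).code = f φ.code)
    (h' : ∃ f : ℕ → ℕ, Primrec f ∧ ∀ φ, (F' φ).code = f φ.code) :
    ∃ f : ℕ → ℕ, Primrec f ∧ ∀ φ, (F (F' φ)).code = f φ.code := by
  obtain ⟨f, hf, h⟩ := h
  obtain ⟨f', hf', h'⟩ := h'
  exact ⟨fun x => f (f' x), hf.comp hf', fun φ => by rw [h, h']⟩

theorem prim_fPhi : Primrec fun n => (fPhi n).code := by
  obtain ⟨f, hf, h⟩ : ∃ f : ℕ → ℕ, Primrec f ∧ ∀ φ, (Pos.or (.step 6 5) (fF φ)).code = f φ.code :=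
    prim_or _ prim_fF
  have h1 : Primrec fun n => (fNe n).code := by
    refine (Primrec.nat_rec₁ (fNe 0).code (f := fun _ x => f x)
      (hf.comp Primrec.snd).to₂).of_eq ?_
    intro n
    induction n with
    | zero => rfl
    | succ n ih =>
      change f _ = _
      rw [ih]
      exact (h _).symm
  obtain ⟨g, hg, h2⟩ : ∃ f : ℕ → ℕ, Primrec f ∧ ∀ φ,
      ((Pos.ex 1 (.ex 2 (.ex 3 (.ex 4 (.ex 5 (.and fAA (.all 0 (.or fGam (.or fPsi
      (.ex 6 (.and (.ex 8 (.and (.step 8 0) (.and (.step 8 1) (.and (.step 8 6) (.step 6 3)))))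
    (.or (.step 6 4) (fF φ))))))))))))) : Pos).code = f φ.code :=
    prim_ex 1 (prim_ex 2 (prim_ex 3 (prim_ex 4 (prim_ex 5 (prim_and _ (prim_all 0 (prim_or _
      (prim_or _ (prim_ex 6 (prim_and _ (prim_or _ prim_fF)))))))))))
  exact (hg.comp h1).of_eq fun n => (h2 (fNe n)).symm

/-- The map from formulas to Goedel numbers is injective. -/
theorem code_injective : Function.Injective Pos.code := by
  intro φ
  induction φ with
  | eq i j =>
    intro ψ h
    cases ψ <;> simp_all [Pos.code, Nat.pair_eq_pair]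
  | step i j =>
    intro ψ h
    cases ψ <;> simp_all [Pos.code, Nat.pair_eq_pair]
  | and φ ψ h1 h2 =>
    intro χ h
    cases χ <;> simp only [Pos.code, Nat.pair_eq_pair] at h <;> first
      | (exact absurd h.1 (by decide))
      | (rw [h1 h.2.1, h2 h.2.2])
  | or φ ψ h1 h2 =>
    intro χ h
    cases χ <;> simp only [Pos.code, Nat.pair_eq_pair] at h <;> first
      | (exact absurd h.1 (by decide))
      | (rw [h1 h.2.1, h2 h.2.2])
  | ex i φ h1 =>
    intro χ h
    cases χ <;> simp only [Pos.code, Nat.pair_eq_pair] at h <;> first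
      | (exact absurd h.1 (by decide))
      | (rw [h.2.1, h1 h.2.2])
  | all i φ h1 =>
    intro χ h
    cases χ <;> simp only [Pos.code, Nat.pair_eq_pair] at h <;> first
      | (exact absurd h.1 (by decide))
      | (rw [h.2.1, h1 h.2.2])

end Pool.Agent.Q318.OSR
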