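import Pool.Agent.Q318.OSR.Outer
import Pool.Agent.H502.PcReg

set_option autoImplicit false

/-! A universal register machine. -/

namespace Pool.Agent.Q318.OSR

open Pool.Agent.H502.PcSrc

section machine

variable {P : Type} (D : DM P (Bool × Bool)) (e : P → ℕ)

/-- The register with number `i`. -/
def rg : Fin 4 → Bool × Bool
  | 0 => (false, true)
  | 1 => (false, false)
  | 2 => (true, true)
  | 3 => (true, false)

theorem rg_surj (j : Bool × Bool) : ∃ i, rg i = j := by
  obtain ⟨a, b⟩ := j
  cases a <;> cases b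
  · exact ⟨1, rfl⟩
  · exact ⟨0, rfl⟩
  · exact ⟨3, rfl⟩
  · exact ⟨2, rfl⟩

/-- The counters of a configuration. -/
def cfg (p : P) (c : Bool × Bool → ℤ) : Fin 5 → ℕ :=
  Fin.cases (e p) fun i => (c (rg i)).toNat

/-- The machine rule for the state `p` and the branch `b`. -/
def mkCR (p : P) (b : Bool) (p' : P) : CR where
  ex := Fin.cases true fun i => decide (rg i = D.reg p) && !b
  al := Fin.cases (e p) fun i => if rg i = D.reg p ∧ b = true then 1 else 0
  be := Fin.cases (e p') fun i =>
    if rg i = D.reg p ∧ b = true then 0 else (D.vec p b (rg i)).toNat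

theorem mt_iff (p : P) (b : Bool) (p' : P) (v : Fin 5 → ℕ) :
    (mkCR D e p b p').mt v ↔ v 0 = e p ∧ ∀ i : Fin 4, rg i = D.reg p → (b = true ↔ 0 < v i.succ) := by
  unfold CR.mt
  constructor
  · intro h
    refine ⟨(h 0).2 rfl, fun i hi => ?_⟩
    have h1 := h i.succ
    change (if rg i = D.reg p ∧ b = true then 1 else 0) ≤ v i.succ ∧
      ((decide (rg i = D.reg p) && !b) = true →
        v i.succ = if rg i = D.reg p ∧ b = true then 1 else 0) at h1
    simp only [hi, true_and, decide_true, Bool.true_and] at h1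
    cases b
    · simp at h1
      simp [h1]
    · simp at h1
      simp only [true_iff]
      omega
  · rintro ⟨h0, h⟩ j
    refine Fin.cases ?_ (fun i => ?_) j
    · exact ⟨h0.ge, fun _ => h0⟩
    · change (if rg i = D.reg p ∧ b = true then 1 else 0) ≤ v i.succ ∧
        ((decide (rg i = D.reg p) && !b) = true →
          v i.succ = if rg i = D.reg p ∧ b = true then 1 else 0)
      by_cases hi : rg i = D.reg p
      · have h1 := h i hi
        simp only [hi, true_and, decide_true, Bool.true_and]
        cases b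
        · simp at h1
          simp [h1]
        · simp only [true_iff] at h1
          simp
          omega
      · simp [hi]

theorem mt_cfg (he : Function.Injective e) (p q : P) (b : Bool) (p' : P) (c : Bool × Bool → ℤ)
    : (mkCR D e p b p').mt (cfg e q c) ↔ q = p ∧ b = D.br p c := by
  rw [mt_iff]
  have h0 : cfg e q c 0 = e q := rfl
  have h1 : ∀ i : Fin 4, cfg e q c i.succ = (c (rg i)).toNat := fun i => rfl
  rw [h0, he.eq_iff]
  refine and_congr_right fun _ => ?_
  obtain ⟨i, hi⟩ := rg_surj (D.reg p)
  constructor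
  · intro h
    have h2 := h i hi
    rw [h1, hi] at h2
    unfold DM.br
    cases b
    · simp only [Bool.false_eq_true, false_iff, not_lt] at h2
      have h3 : ¬ 0 < c (D.reg p) := by omega
      simp [h3]
    · simp only [true_iff] at h2
      have h3 : 0 < c (D.reg p) := by omega
      simp [h3]
  · rintro rfl i hi
    rw [h1, hi]
    unfold DM.br
    simp only [decide_eq_true_eq]
    omega

theorem rs_cfg (p : P) (p' : P) (c : Bool × Bool → ℤ) (hc : ∀ j, 0 ≤ c j) :
    (mkCR D e p (D.br p c) p').rs (cfg e p c) = cfg e p' (c + D.vec p (D.br p c)) := by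
  funext j
  refine Fin.cases ?_ (fun i => ?_) j
  · change e p' + (e p - e p) = e p'
    omega
  · change (if rg i = D.reg p ∧ D.br p c = true then 0 else (D.vec p (D.br p c) (rg i)).toNat) +
      ((c (rg i)).toNat - if rg i = D.reg p ∧ D.br p c = true then 1 else 0) =
      (c (rg i) + D.vec p (D.br p c) (rg i)).toNat
    by_cases h : rg i = D.reg p ∧ D.br p c = true
    · rw [if_pos h, if_pos h, h.1, h.2, D.hp']
      have := hc (D.reg p)
      omega
    · rw [if_neg h, if_neg h]
      have h1 := hc (rg i)
      have h2 : 0 ≤ D.vec p (D.br p c) (rg i) := by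
        cases hb : D.br p c with
        | false => exact D.hz p _
        | true =>
          refine D.hp p _ fun h' => h ⟨h', hb⟩
      omega

/-- The list of the machine rules. -/
noncomputable def KK [Fintype P] : List CR :=
  (Finset.univ : Finset (P × Bool)).toList.filterMap fun x =>
    (D.nxt x.1 x.2).map (mkCR D e x.1 x.2)

variable [Fintype P]

theorem mem_KK (k : CR) : k ∈ KK D e ↔ ∃ p b p', D.nxt p b = some p' ∧ k = mkCR D e p b p' := by
  unfold KK
  rw [List.mem_filterMap]
  constructor
  · rintro ⟨⟨p, b⟩, -, h⟩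
    simp only [Option.map_eq_some_iff] at h
    obtain ⟨p', h1, h2⟩ := h
    exact ⟨p, b, p', h1, h2.symm⟩
  · rintro ⟨p, b, p', h1, rfl⟩
    refine ⟨(p, b), Finset.mem_toList.2 (Finset.mem_univ _), ?_⟩
    simp only [h1, Option.map_some]

theorem KK_det (he : Function.Injective e) (v : Fin 5 → ℕ) (k : CR) (hk : k ∈ KK D e) (k' : CR)
    (hk' : k' ∈ KK D e) (h : k.mt v) (h' : k'.mt v) : k.rs v = k'.rs v := by
  obtain ⟨p, b, p1, h1, rfl⟩ := (mem_KK D e k).1 hk
  obtain ⟨q, b', q1, h2, rfl⟩ := (mem_KK D e k').1 hk'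
  rw [mt_iff] at h h'
  have e1 : p = q := he (by rw [← h.1, ← h'.1])
  subst e1
  obtain ⟨i, hi⟩ := rg_surj (D.reg p)
  have h3 := h.2 i hi
  have h4 := h'.2 i hi
  have e2 : b = b' := by
    cases b <;> cases b' <;> simp_all
  subst e2
  rw [h1] at h2
  obtain rfl := Option.some.inj h2
  rfl

theorem hl_iff (he : Function.Injective e) (p : P) (c : Bool × Bool → ℤ) (hc : ∀ j, 0 ≤ c j) :
    HL (KK D e) (cfg e p c) ↔ D.Halts (some p, c) := by
  constructor
  · intro h
    generalize hv : cfg e p c = v at h
    induction h generalizing p c with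
    | stop v h =>
      subst hv
      refine ⟨1, ?_⟩
      change D.nxt p (D.br p c) = none
      rcases ho : D.nxt p (D.br p c) with - | p'
      · rfl
      · exact absurd ((mt_cfg D e he p p (D.br p c) p' c).2 ⟨rfl, rfl⟩)
          (h _ ((mem_KK D e _).2 ⟨p, _, p', ho, rfl⟩))
    | step v k hk hm _ ih =>
      subst hv
      obtain ⟨q, b, p', h1, rfl⟩ := (mem_KK D e k).1 hk
      obtain ⟨rfl, rfl⟩ := (mt_cfg D e he q p b p' c).1 hm
      rw [← DM.halts_st]
      change D.Halts (D.nxt p (D.br p c), c + D.vec p (D.br p c))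
      rw [h1]
      have h2 := D.st_nonneg (some p, c) hc
      exact ih p' _ h2 (rs_cfg D e p p' c hc).symm
  · rintro ⟨k, hk⟩
    induction k generalizing p c with
    | zero => simp at hk
    | succ k ih =>
      rw [Function.iterate_succ_apply] at hk
      change (D.st^[k] (D.nxt p (D.br p c), c + D.vec p (D.br p c))).1 = none at hk
      rcases ho : D.nxt p (D.br p c) with - | p'
      · refine .stop _ fun k' hk' hm => ?_
        obtain ⟨q, b, p', h1, rfl⟩ := (mem_KK D e k').1 hk'
        obtain ⟨rfl, rfl⟩ := (mt_cfg D e he q p b p' c).1 hm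
        rw [ho] at h1
        exact absurd h1 (by simp)
      · rw [ho] at hk
        refine .step _ (mkCR D e p (D.br p c) p') ((mem_KK D e _).2 ⟨p, _, p', ho, rfl⟩)
          ((mt_cfg D e he p p _ p' c).2 ⟨rfl, rfl⟩) ?_
        rw [rs_cfg D e p p' c hc]
        exact ih p' _ (D.st_nonneg (some p, c) hc) hk

end machine

/-- A fixed five-counter machine with an undecidable halting problem. -/
theorem exists_K : ∃ (K : List CR) (N : ℕ → ℕ), Computable N ∧
    (∀ v, ∀ k ∈ K, ∀ k' ∈ K, k.mt v → k'.mt v → k.rs v = k'.rs v) ∧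
    ¬ ComputablePred fun n => HL K (init (N n)) := by
  classical
  obtain ⟨Q, hQ, M, q0, N, -, hN, h⟩ := exists_sys
  have hf : Finite (RS M) := inferInstance
  let _ : Fintype (RS M) := Fintype.ofFinite _
  let D : DM (RS M) (Bool × Bool) := dm M q0 0
  let p0 : RS M := .d1 q0 (z0 M)
  let e : RS M → ℕ := fun p => if p = p0 then 0 else (Fintype.equivFin (RS M) p : ℕ) + 1
  have he : Function.Injective e := by
    intro x y hxy
    simp only [e] at hxy
    split_ifs at hxy with h1 h2 h2
    · rw [h1, h2]
    · exact (Fintype.equivFin (RS M)).injective (Fin.ext (by omega))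
  refine ⟨KK D e, N, hN, KK_det D e he, fun hc => h (hc.of_eq fun n => ?_)⟩
  have h1 : init (N n) = cfg e p0 (v4 (N n) 0 0 0) := by
    funext j
    fin_cases j
    · change 0 = e p0
      simp [e]
    · change N n = ((N n : ℤ)).toNat
      simp
    · rfl
    · rfl
    · rfl
  rw [h1, hl_iff D e he]
  · exact dm_halts_iff M q0 0 q0 (ini (N n))
  · intro j
    obtain ⟨i, rfl⟩ := rg_surj j
    fin_cases i
    · exact Int.natCast_nonneg _
    · exact le_refl _
    · exact le_refl _
    · exact le_refl _

end Pool.Agent.Q318.OSR
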