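import Pool.Agent.Q318.OSR.Compl

set_option autoImplicit false

/-! The relations defined with the help of the symbols `L, M, Y`. -/

namespace Pool.Agent.Q318.OSR

variable {K : List CR}

theorem st_to_A {y : G} {i : Fin 5} (h : St K y (gA i)) : Rt K y (gA i) := by
  obtain ⟨E, l, r, h1, rfl, h2⟩ := step_rt.1 h
  obtain ⟨rfl, rfl⟩ := gA_fill h2
  exact h1

theorem from_A {y : G} {i : Fin 5} (h : St K (gA i) y) : y = gA (i + 1) := by
  obtain ⟨E, l, r, h1, h2, rfl⟩ := step_rt.1 h
  obtain ⟨rfl, rfl⟩ := gA_fill h2
  change r = _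
  generalize hl : gA i = l at h1
  cases h1 with
  | AA i' => rw [gA_inj hl]
  | Lx t => exact absurd (congrArg Ground.head hl) (by simp)
  | _ => exact absurd (congrArg Ground.head hl) (by simp)

theorem st_L {t y : G} (h : St K (gL t) y) :
    y = t ∨ y = gA 0 ∨ y = gM t ∨ ∃ t', St K t t' ∧ y = gL t' := by
  obtain ⟨E, l, r, h1, h2, rfl⟩ := step_rt.1 h
  cases E with
  | hole =>
    change gL t = l at h2
    change r = _ ∨ r = _ ∨ r = _ ∨ _
    cases h1 with
    | Lx t' => exact .inl (gL_inj h2).symm
    | LA t' => exact .inr (.inl rfl)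
    | LM t' => rw [gL_inj h2]; exact .inr (.inr (.inl rfl))
    | _ => exact absurd (congrArg Ground.head h2) (by simp)
  | arg f a i E =>
    right; right; right
    unfold gL at h2
    simp only [Cx.fill] at h2 ⊢
    injection h2 with e1 e2
    subst e1
    have e3 := congrFun (eq_of_heq e2) i
    rw [Function.update_self] at e3
    refine ⟨E.fill r, ?_, ?_⟩
    · have : t = E.fill l := e3
      rw [this]
      exact h1.fill E
    · rw [eta_L]
      congr 1
      have h0 : (0 : Fin 1) = i := Subsingleton.elim (α := Fin 1) _ _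
      exact (congrArg (Function.update a i (E.fill r)) h0).trans (Function.update_self _ _ _)

theorem st_Y {u v y : G} (h : St K (gY u v) y) :
    y = gA 3 ∨ y = gM u ∨ y = gL v ∨ y = gA 1 ∨ ∃ u' v', y = gY u' v' := by
  obtain ⟨E, l, r, h1, h2, rfl⟩ := step_rt.1 h
  cases E with
  | hole =>
    change gY u v = l at h2
    change r = _ ∨ r = _ ∨ r = _ ∨ r = _ ∨ _
    cases h1 with
    | YA u' v' => exact .inl rfl
    | YM u' v' => rw [(gY_inj h2).1]; exact .inr (.inl rfl)
    | YL u' v' => rw [(gY_inj h2).2]; exact .inr (.inr (.inl rfl))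
    | Ys t => exact .inr (.inr (.inr (.inl rfl)))
    | Yc a h => exact .inr (.inr (.inr (.inl rfl)))
    | Lx t => exact absurd (congrArg Ground.head h2) (by simp)
    | _ => exact absurd (congrArg Ground.head h2) (by simp)
  | arg f a i E =>
    right; right; right; right
    unfold gY at h2
    simp only [Cx.fill] at h2 ⊢
    injection h2 with e1 e2
    subst e1
    exact ⟨_, _, eta_Y _⟩

theorem rtA0 {l : G} (h : Rt K l (gA 0)) : (∃ t, l = gL t) ∨ l = gA 4 := by
  generalize hr : gA 0 = r at h
  cases h with
  | Lx t => exact .inl ⟨_, rfl⟩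
  | LA t => exact .inl ⟨_, rfl⟩
  | AA i =>
    right
    have := gA_inj hr
    clear hr
    congr 1
    revert this
    revert i
    decide
  | sn t => exact absurd (congrArg Ground.head hr) (by simp)
  | zm => exact absurd (congrArg Ground.head hr) (by simp)
  | nm t => exact absurd (congrArg Ground.head hr) (by simp)
  | LM t => exact absurd (congrArg Ground.head hr) (by simp)
  | YM u v => exact absurd (congrArg Ground.head hr) (by simp)
  | YL u v => exact absurd (congrArg Ground.head hr) (by simp)
  | fin k hk x => exact absurd (congrArg Ground.head hr) (by simp)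
  | err k hk x y h j => exact absurd (congrArg Ground.head hr) (by simp)
  | _ => exact absurd (gA_inj hr) (by decide)

theorem rtA1 {l : G} (h : Rt K l (gA 1)) : l = gA 0 ∨ l = gL (gA 1) ∨ (∃ t, l = gY (gs t) t) ∨
    ∃ a h, l = gY (gc a h) (a 1) := by
  generalize hr : gA 1 = r at h
  cases h with
  | Lx t => exact .inr (.inl (by rw [← hr]))
  | Ys t => exact .inr (.inr (.inl ⟨_, rfl⟩))
  | Yc a h => exact .inr (.inr (.inr ⟨_, _, rfl⟩))
  | AA i =>
    left
    have := gA_inj hr
    clear hr
    congr 1
    revert this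
    revert i
    decide
  | sn t => exact absurd (congrArg Ground.head hr) (by simp)
  | zm => exact absurd (congrArg Ground.head hr) (by simp)
  | nm t => exact absurd (congrArg Ground.head hr) (by simp)
  | LM t => exact absurd (congrArg Ground.head hr) (by simp)
  | YM u v => exact absurd (congrArg Ground.head hr) (by simp)
  | YL u v => exact absurd (congrArg Ground.head hr) (by simp)
  | fin k hk x => exact absurd (congrArg Ground.head hr) (by simp)
  | err k hk x y h j => exact absurd (congrArg Ground.head hr) (by simp)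
  | _ => exact absurd (gA_inj hr) (by decide)

theorem rtA2 {l : G} (h : Rt K l (gA 2)) : l = gA 1 ∨ l = gL (gA 2) ∨ ∃ t, l = gM t := by
  generalize hr : gA 2 = r at h
  cases h with
  | Lx t => exact .inr (.inl (by rw [← hr]))
  | MA t => exact .inr (.inr ⟨_, rfl⟩)
  | AA i =>
    left
    have := gA_inj hr
    clear hr
    congr 1
    revert this
    revert i
    decide
  | sn t => exact absurd (congrArg Ground.head hr) (by simp)
  | zm => exact absurd (congrArg Ground.head hr) (by simp)
  | nm t => exact absurd (congrArg Ground.head hr) (by simp)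
  | LM t => exact absurd (congrArg Ground.head hr) (by simp)
  | YM u v => exact absurd (congrArg Ground.head hr) (by simp)
  | YL u v => exact absurd (congrArg Ground.head hr) (by simp)
  | fin k hk x => exact absurd (congrArg Ground.head hr) (by simp)
  | err k hk x y h j => exact absurd (congrArg Ground.head hr) (by simp)
  | _ => exact absurd (gA_inj hr) (by decide)

/-! ### The constants -/

/-- The definition of the five constants. -/
def AA (K : List CR) (a : Fin 5 → G) : Prop :=
  (∀ z, ∃ y, St K y z ∧ St K y (a 0)) ∧ St K (a 0) (a 1) ∧ St K (a 1) (a 2) ∧ St K (a 2) (a 3) ∧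
    St K (a 3) (a 4) ∧ St K (a 4) (a 0)

theorem st_to_e {y : G} (h : St K y ge) : y = gL ge := by
  obtain ⟨E, l, r, h1, rfl, h2⟩ := step_rt.1 h
  cases E with
  | hole =>
    change ge = r at h2
    change l = _
    cases h1 with
    | Lx t => rw [h2]
    | _ => exact absurd (congrArg Ground.head h2) (by simp)
  | arg f a i E =>
    exfalso
    unfold ge at h2
    simp only [Cx.fill] at h2
    injection h2 with e1 e2
    subst e1
    exact Fin.elim0 i

theorem AA_iff (a : Fin 5 → G) : AA K a ↔ a = gA := by
  constructor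
  · rintro ⟨h0, h1, h2, h3, h4, h5⟩
    obtain ⟨y, hy, hy'⟩ := h0 ge
    obtain rfl := st_to_e hy
    have hc : Cyc K (a 0) (a 1) := ⟨_, _, _, h1, h2, h3, h4, h5⟩
    have hn := astep_noA hc.astep
    have e0 : a 0 = gA 0 := by
      rcases st_L hy' with h | h | h | ⟨t', h, -⟩
      · exfalso
        rw [h, all_e] at hn
        exact hn trivial
      · exact h
      · exfalso
        rw [h, all_M, all_e] at hn
        exact hn ⟨trivial, trivial⟩
      · exfalso
        obtain ⟨D, g, _, hg, hD, -⟩ := (valid_e (K := K)).step h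
        obtain ⟨E, l, r, h6, h7, -⟩ := step_rt.1 h
        have := (valid_e (K := K)).red E l r h7 h6
        cases E with
        | hole =>
          change ge = l at h7
          generalize hl : l = l' at h6
          rw [← h7] at hl
          cases h6 with
          | Lx t => exact absurd (congrArg Ground.head hl) (by simp)
          | _ => exact absurd (congrArg Ground.head hl) (by simp)
        | arg f a i E =>
          unfold ge at h7
          simp only [Cx.fill] at h7
          injection h7 with e1 e2
          subst e1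
          exact Fin.elim0 i
    rw [e0] at h1
    have e1 := from_A h1
    rw [e1] at h2
    have e2 := from_A h2
    rw [e2] at h3
    have e3 := from_A h3
    rw [e3] at h4
    have e4 := from_A h4
    funext i
    fin_cases i
    · exact e0
    · exact e1
    · exact e2
    · exact e3
    · exact e4
  · rintro rfl
    exact ⟨fun z => ⟨gL z, (Rt.Lx z).step, (Rt.LA z).step⟩, (Rt.AA 0).step, (Rt.AA 1).step,
      (Rt.AA 2).step, (Rt.AA 3).step, (Rt.AA 4).step⟩

/-! ### The relations -/

/-- From a term to `M(x)`. -/
def Start (K : List CR) (x m : G) : Prop :=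
  ∃ l, St K l x ∧ St K l (gA 0) ∧ St K l m ∧ St K m (gA 2)

/-- From `M(t)` to `M(t')`. -/
def LinkR (K : List CR) (m m' : G) : Prop :=
  ∃ y l, St K y m ∧ St K y (gA 1) ∧ St K y l ∧ St K l (gA 0) ∧ St K l m' ∧ St K m' (gA 2)

theorem L_to_M {x m : G} (hx : x.All (S := Sg) bas) (h1 : St K (gL x) m) (h2 : St K m (gA 2)) :
    m = gM x := by
  rcases st_L h1 with rfl | rfl | rfl | ⟨x', h3, rfl⟩
  · exfalso
    rcases rtA2 (st_to_A h2) with rfl | rfl | ⟨t, rfl⟩ <;> exact hx.1
  · exfalso
    rcases rtA2 (st_to_A h2) with h | h | ⟨t, h⟩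
    · exact absurd (gA_inj h) (by decide)
    · exact absurd (congrArg Ground.head h) (by simp)
    · exact absurd (congrArg Ground.head h) (by simp)
  · rfl
  · exfalso
    rcases rtA2 (st_to_A h2) with h | h | ⟨t, h⟩
    · exact absurd (congrArg Ground.head h) (by simp)
    · obtain rfl := gL_inj h
      rcases rtA2 (st_to_A h3) with rfl | rfl | ⟨t, rfl⟩ <;> exact hx.1
    · exact absurd (congrArg Ground.head h) (by simp)

theorem start_iff {x m : G} (hx : x.All (S := Sg) bas) : Start K x m ↔ m = gM x := by
  constructor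
  · rintro ⟨l, h1, h2, h3, h4⟩
    have hl : l = gL x := by
      rcases rtA0 (st_to_A h2) with ⟨t, rfl⟩ | rfl
      · rcases st_L h1 with rfl | rfl | rfl | ⟨t', -, rfl⟩
        · rfl
        · exact hx.1.elim
        · exact hx.1.elim
        · exact hx.1.elim
      · rw [from_A h1] at hx
        exact hx.1.elim
    rw [hl] at h3
    exact L_to_M hx h3 h4
  · rintro rfl
    exact ⟨gL x, (Rt.Lx x).step, (Rt.LA x).step, (Rt.LM x).step, (Rt.MA x).step⟩

/-- `t'` is the relevant direct subterm of `t`. -/
def Dn (t t' : G) : Prop := t = gs t' ∨ ∃ (a : Fin 5 → G) (h : G), t = gc a h ∧ t' = a 1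

theorem Dn.bas {t t' : G} (h : Dn t t') (ht : t.All (S := Sg) Pool.Agent.Q318.OSR.bas) :
    t'.All (S := Sg) Pool.Agent.Q318.OSR.bas := by
  rcases h with rfl | ⟨a, h, rfl, rfl⟩
  · exact ((all_s _ _).1 ht).2
  · exact ((all_c _ _ _).1 ht).2.2 1

theorem link_iff {t m' : G} (ht : t.All (S := Sg) bas) :
    LinkR K (gM t) m' ↔ ∃ t', m' = gM t' ∧ Dn t t' := by
  constructor
  · rintro ⟨y, l, h1, h2, h3, h4, h5, h6⟩
    have key : ∃ t', y = gY t t' ∧ Dn t t' := by
      rcases rtA1 (st_to_A h2) with rfl | rfl | ⟨u, rfl⟩ | ⟨a, h, rfl⟩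
      · exact absurd (congrArg Ground.head (from_A h1)) (by simp)
      · exfalso
        rcases st_L h1 with h | h | h | ⟨x', -, h⟩
        · exact absurd (congrArg Ground.head h) (by simp)
        · exact absurd (congrArg Ground.head h) (by simp)
        · rw [gM_inj h] at ht
          exact ht.1
        · exact absurd (congrArg Ground.head h) (by simp)
      · rcases st_Y h1 with h | h | h | h | ⟨u', v', h⟩
        · exact absurd (congrArg Ground.head h) (by simp)
        · have e := gM_inj h
          exact ⟨u, by rw [e], .inl e⟩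
        · exact absurd (congrArg Ground.head h) (by simp)
        · exact absurd (congrArg Ground.head h) (by simp)
        · exact absurd (congrArg Ground.head h) (by simp)
      · rcases st_Y h1 with h' | h' | h' | h' | ⟨u', v', h'⟩
        · exact absurd (congrArg Ground.head h') (by simp)
        · have e := gM_inj h'
          exact ⟨a 1, by rw [e], .inr ⟨a, h, e, rfl⟩⟩
        · exact absurd (congrArg Ground.head h') (by simp)
        · exact absurd (congrArg Ground.head h') (by simp)
        · exact absurd (congrArg Ground.head h') (by simp)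
    obtain ⟨t', rfl, hd⟩ := key
    have hl : l = gL t' := by
      rcases st_Y h3 with rfl | rfl | rfl | rfl | ⟨u', v', rfl⟩
      · rcases rtA0 (st_to_A h4) with ⟨u, h⟩ | h
        · exact absurd (congrArg Ground.head h) (by simp)
        · exact absurd (gA_inj h) (by decide)
      · rcases rtA0 (st_to_A h4) with ⟨u, h⟩ | h
        · exact absurd (congrArg Ground.head h) (by simp)
        · exact absurd (congrArg Ground.head h) (by simp)
      · rfl
      · rcases rtA0 (st_to_A h4) with ⟨u, h⟩ | h
        · exact absurd (congrArg Ground.head h) (by simp)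
        · exact absurd (gA_inj h) (by decide)
      · rcases rtA0 (st_to_A h4) with ⟨u, h⟩ | h
        · exact absurd (congrArg Ground.head h) (by simp)
        · exact absurd (congrArg Ground.head h) (by simp)
    rw [hl] at h5
    exact ⟨t', L_to_M (hd.bas ht) h5 h6, hd⟩
  · rintro ⟨t', rfl, hd⟩
    refine ⟨gY t t', gL t', (Rt.YM _ _).step, ?_, (Rt.YL _ _).step, (Rt.LA _).step,
      (Rt.LM _).step, (Rt.MA _).step⟩
    rcases hd with rfl | ⟨a, h, rfl, rfl⟩
    · exact (Rt.Ys _).step
    · exact (Rt.Yc _ _).step

theorem M_zero {t : G} : St K (gM t) (gA 4) ↔ t = gz := by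
  constructor
  · intro h
    have h := st_to_A h
    generalize hl : gM t = l at h
    generalize hr : gA 4 = r at h
    cases h with
    | M0 => exact gM_inj hl
    | MA t => exact absurd (gA_inj hr) (by decide)
    | Mz => exact absurd (gA_inj hr) (by decide)
    | Ms t => exact absurd (gA_inj hr) (by decide)
    | Me => exact absurd (gA_inj hr) (by decide)
    | Mc a h j t hj ha => exact absurd (gA_inj hr) (by decide)
    | Lx t => exact absurd (congrArg Ground.head hl) (by simp)
    | _ => exact absurd (congrArg Ground.head hl) (by simp)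
  · rintro rfl
    exact Rt.M0.step

/-- Terms that are no start of a history. -/
def BadShape (t : G) : Prop :=
  t = gz ∨ (∃ u, t = gs u) ∨ t = ge ∨ ∃ (a : Fin 5 → G) (h : G) (j : Fin 5) (u : G),
    j ≠ 1 ∧ t = gc a h ∧ a j = gs u

theorem M_bad {t : G} : St K (gM t) (gA 3) ↔ BadShape t := by
  constructor
  · intro h
    have h := st_to_A h
    generalize hl : gM t = l at h
    generalize hr : gA 3 = r at h
    cases h with
    | M0 => exact absurd (gA_inj hr) (by decide)
    | MA t => exact absurd (gA_inj hr) (by decide)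
    | Mz => exact .inl (gM_inj hl)
    | Ms t => exact .inr (.inl ⟨_, gM_inj hl⟩)
    | Me => exact .inr (.inr (.inl (gM_inj hl)))
    | Mc a h j t hj ha => exact .inr (.inr (.inr ⟨a, h, j, t, hj, gM_inj hl, ha⟩))
    | Lx t => exact absurd (congrArg Ground.head hl) (by simp)
    | _ => exact absurd (congrArg Ground.head hl) (by simp)
  · rintro (rfl | ⟨u, rfl⟩ | rfl | ⟨a, h, j, u, hj, rfl, ha⟩)
    · exact Rt.Mz.step
    · exact (Rt.Ms _).step
    · exact Rt.Me.step
    · exact (Rt.Mc a h j u hj ha).step

/-- The number is not `n`. -/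
def NeP (K : List CR) : ℕ → G → Prop
  | 0, m => ∃ m', LinkR K m m'
  | n + 1, m => St K m (gA 4) ∨ ∃ m', LinkR K m m' ∧ NeP K n m'

theorem dn_num {k : ℕ} {t' : G} : Dn (num k) t' ↔ ∃ k', k = k' + 1 ∧ t' = num k' := by
  constructor
  · rintro (h | ⟨a, h, e, rfl⟩)
    · rcases k with - | k
      · exact absurd (congrArg Ground.head h) (by simp [num, gN])
      · exact ⟨k, rfl, (gs_inj h).symm⟩
    · rcases k with - | k <;> exact absurd (congrArg Ground.head e) (by simp [num, gN])
  · rintro ⟨k', rfl, rfl⟩
    exact .inl rfl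

theorem neP_iff (n : ℕ) : ∀ k, NeP K n (gM (num k)) ↔ k ≠ n := by
  induction n with
  | zero =>
    intro k
    unfold NeP
    constructor
    · rintro ⟨m', h⟩
      obtain ⟨t', -, h'⟩ := (link_iff (all_num trivial trivial k)).1 h
      obtain ⟨k', rfl, -⟩ := dn_num.1 h'
      omega
    · intro h
      obtain ⟨k', rfl⟩ := Nat.exists_eq_succ_of_ne_zero h
      exact ⟨_, (link_iff (all_num trivial trivial _)).2 ⟨_, rfl, dn_num.2 ⟨k', rfl, rfl⟩⟩⟩
  | succ n ih =>
    intro k
    unfold NeP
    constructor
    · rintro (h | ⟨m', h, h1⟩)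
      · rw [M_zero] at h
        have : k = 0 := num_inj h
        omega
      · obtain ⟨t', rfl, h'⟩ := (link_iff (all_num trivial trivial k)).1 h
        obtain ⟨k', rfl, rfl⟩ := dn_num.1 h'
        rw [ih] at h1
        omega
    · intro h
      rcases k with - | k
      · exact .inl (M_zero.2 rfl)
      · refine .inr ⟨gM (num k), (link_iff (all_num trivial trivial _)).2
          ⟨_, rfl, dn_num.2 ⟨k, rfl, rfl⟩⟩, (ih k).2 ?_⟩
        omega

/-- The initial configuration. -/
def init (n : ℕ) : Fin 5 → ℕ := fun j => if j = 1 then n else 0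

/-- The term is no history starting with the initial configuration. -/
def NI (K : List CR) (n : ℕ) (x : G) : Prop :=
  ∃ m, Start K x m ∧ (St K m (gA 3) ∨ ∃ m', LinkR K m m' ∧ NeP K n m')

theorem ni_init {n : ℕ} {h : G} (hb : (gc (fun j => num (init n j)) h).All (S := Sg) bas) :
    ¬ NI K n (gc (fun j => num (init n j)) h) := by
  rintro ⟨m, h1, h2⟩
  rw [start_iff hb] at h1
  subst h1
  rcases h2 with h2 | ⟨m', h2, h3⟩
  · rw [M_bad] at h2
    rcases h2 with h2 | ⟨u, h2⟩ | h2 | ⟨a, h', j, u, hj, h2, h3⟩
    · exact absurd (congrArg Ground.head h2) (by simp)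
    · exact absurd (congrArg Ground.head h2) (by simp)
    · exact absurd (congrArg Ground.head h2) (by simp)
    · rw [← (gc_inj h2).1] at h3
      simp only [init, hj, if_false] at h3
      exact absurd (congrArg Ground.head h3) (by simp [num, gN])
  · rw [link_iff hb] at h2
    obtain ⟨t', rfl, h4 | ⟨a, h', h4, rfl⟩⟩ := h2
    · exact absurd (congrArg Ground.head h4) (by simp)
    · rw [← (gc_inj h4).1] at h3
      rw [neP_iff] at h3
      exact h3 rfl

theorem ni_of {n : ℕ} {v : Fin 5 → ℕ} {h : G} (hb : (gc (fun j => num (v j)) h).All (S := Sg) bas)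
    (hv : v ≠ init n) : NI K n (gc (fun j => num (v j)) h) := by
  refine ⟨_, (start_iff hb).2 rfl, ?_⟩
  by_cases h1 : ∃ j, j ≠ 1 ∧ v j ≠ 0
  · obtain ⟨j, hj, hv⟩ := h1
    obtain ⟨u, hu⟩ := Nat.exists_eq_succ_of_ne_zero hv
    left
    rw [M_bad]
    refine .inr (.inr (.inr ⟨_, _, j, num u, hj, rfl, ?_⟩))
    rw [hu]
    rfl
  · push Not at h1
    right
    refine ⟨gM (num (v 1)), (link_iff hb).2 ⟨_, rfl, .inr ⟨_, _, rfl, rfl⟩⟩, (neP_iff n _).2 ?_⟩
    intro h2
    apply hv
    funext j
    unfold init
    split_ifs with hj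
    · rw [hj, h2]
    · exact h1 j hj

theorem IsH.bas {x : G} (h : IsH x) : x.All (S := Sg) Pool.Agent.Q318.OSR.bas := by
  induction h with
  | e => exact (all_e _).2 trivial
  | c v h hh ih => exact (all_c _ _ _).2 ⟨trivial, ih, fun j => all_num trivial trivial _⟩

/-- The main equivalence. -/
theorem main_iff (hdet : ∀ v, ∀ k ∈ K, ∀ k' ∈ K, k.mt v → k'.mt v → k.rs v = k'.rs v) (n : ℕ) :
    (∀ x, Gam K x ∨ Psi K x ∨ NI K n x) ↔ ¬ HL K (init n) := by
  constructor
  · intro h hh
    obtain ⟨h', hv⟩ := exists_valid hdet hh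
    rcases h _ with h | h | h
    · exact hv.not_gam h
    · exact hv.not_psi h
    · exact ni_init hv.bas h
  · intro h x
    by_contra hx
    push Not at hx
    obtain ⟨h1, h2, h3⟩ := hx
    have hg := good_of h1 h2
    rcases good_typed x hg with ⟨k, rfl⟩ | hH
    · apply h3
      refine ⟨_, (start_iff (all_num trivial trivial k)).2 rfl, .inl (M_bad.2 ?_)⟩
      rcases k with - | k
      · exact .inl rfl
      · exact .inr (.inl ⟨_, rfl⟩)
    · have hb := hH.bas
      have hH' := hH
      cases hH with
      | e =>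
        apply h3
        exact ⟨_, (start_iff hb).2 rfl, .inl (M_bad.2 (.inr (.inr (.inl rfl))))⟩
      | c v h' hh =>
        by_cases hv : v = init n
        · apply h
          rw [← hv]
          exact hl_of_good hH' hg v h' rfl
        · exact h3 (ni_of hb hv)

end Pool.Agent.Q318.OSR
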