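import Pool.Agent.Q318.OSR.Ana

set_option autoImplicit false

/-! Soundness: correct histories are not rejected. -/

namespace Pool.Agent.Q318.OSR

variable {K : List CR}

theorem noO_of_bas {f : Sy} (h : bas f) : noO f := by
  cases f <;> simp_all [bas, noO]

theorem noA_of_bas {f : Sy} (h : bas f) : noA f := by
  cases f <;> simp_all [bas, noA]

theorem all_gX {p : Sy → Prop} {k : CR} {x : Fin 5 → G} {j : Fin 5}
    (h : (gN (k.al j) (gX k x j)).All (S := Sg) p) (hs : p Sy.s) (n : ℕ) :
    (gN n (gX k x j)).All (S := Sg) p := by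
  rw [all_N _ _ _ hs] at h ⊢
  exact h

/-- The rules that are applicable to terms without `L, M, Y` introduce no such symbols, and their
right hand sides have a new root symbol. -/
theorem rt_noO {g g' : G} (h : Rt K g g') (hg : g.All (S := Sg) noO) :
    g'.All (S := Sg) noO ∧ ¬ bas g'.head := by
  cases h with
  | sn t => rw [all_s] at hg; exact ⟨(all_n _ _).2 ⟨trivial, hg.2⟩, id⟩
  | zm => exact ⟨(all_m _).2 trivial, id⟩
  | nm t => exact ⟨(all_m _).2 trivial, id⟩
  | Lx t => exact hg.1.elim
  | LA t => exact hg.1.elim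
  | LM t => exact hg.1.elim
  | MA t => exact hg.1.elim
  | Mz => exact hg.1.elim
  | Ms t => exact hg.1.elim
  | Me => exact hg.1.elim
  | Mc a h j t hj ha => exact hg.1.elim
  | M0 => exact hg.1.elim
  | YA u v => exact hg.1.elim
  | YM u v => exact hg.1.elim
  | YL u v => exact hg.1.elim
  | Ys t => exact hg.1.elim
  | Yc a h => exact hg.1.elim
  | fin k hk x =>
    refine ⟨(all_P _ _ _).2 ⟨trivial, (all_z _).2 trivial, (all_s _ _).2 ⟨trivial, (all_z _).2 trivial⟩⟩, id⟩
  | err k hk x y h j =>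
    rw [all_c, all_c] at hg
    refine ⟨(all_P _ _ _).2 ⟨trivial, ?_, hg.2.1.2.2 j⟩, id⟩
    exact all_gX (hg.2.2 j) trivial _
  | _ => exact ⟨(all_A _ _).2 trivial, id⟩

theorem rt_noA {g g' : G} (h : Rt K g g') (hg : g.All (S := Sg) noA) :
    (∃ i, g' = gA i) ∨ g'.All (S := Sg) noA := by
  cases h with
  | sn t => rw [all_s] at hg; exact .inr ((all_n _ _).2 ⟨trivial, hg.2⟩)
  | zm => exact .inr ((all_m _).2 trivial)
  | nm t => exact .inr ((all_m _).2 trivial)
  | Lx t => rw [all_L] at hg; exact .inr hg.2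
  | LM t => rw [all_L] at hg; exact .inr ((all_M _ _).2 ⟨trivial, hg.2⟩)
  | YM u v => rw [all_Y] at hg; exact .inr ((all_M _ _).2 ⟨trivial, hg.2.1⟩)
  | YL u v => rw [all_Y] at hg; exact .inr ((all_L _ _).2 ⟨trivial, hg.2.2⟩)
  | fin k hk x =>
    exact .inr ((all_P _ _ _).2 ⟨trivial, (all_z _).2 trivial,
      (all_s _ _).2 ⟨trivial, (all_z _).2 trivial⟩⟩)
  | err k hk x y h j =>
    rw [all_c, all_c] at hg
    refine .inr ((all_P _ _ _).2 ⟨trivial, ?_, hg.2.1.2.2 j⟩)
    exact all_gX (hg.2.2 j) trivial _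
  | _ => exact .inl ⟨_, rfl⟩

theorem rt_una {g g' : G} (h : Rt K g g') (hg : g.All (S := Sg) una) :
    g'.All (S := Sg) una := by
  cases h with
  | sn t => rw [all_s] at hg; exact (all_n _ _).2 ⟨trivial, hg.2⟩
  | zm => exact (all_m _).2 trivial
  | nm t => exact (all_m _).2 trivial
  | Lx t => exact hg.1.elim
  | LM t => exact hg.1.elim
  | YM u v => exact hg.1.elim
  | YL u v => exact hg.1.elim
  | fin k hk x => exact hg.1.elim
  | err k hk x y h j => exact hg.1.elim
  | _ => exact (all_A _ _).2 trivial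

theorem st_noO {x y : G} (h : St K x y) (hx : x.All (S := Sg) noO) : y.All (S := Sg) noO := by
  obtain ⟨D, g, g', h', rfl, rfl⟩ := step_rt.1 h
  rw [all_fill] at hx ⊢
  exact ⟨hx.1, (rt_noO h' hx.2).1⟩

theorem st_una {x y : G} (h : St K x y) (hx : x.All (S := Sg) una) : y.All (S := Sg) una := by
  obtain ⟨D, g, g', h', rfl, rfl⟩ := step_rt.1 h
  rw [all_fill] at hx ⊢
  exact ⟨hx.1, rt_una h' hx.2⟩

/-! ### Malformed terms -/

/-- `f' ` may not be the root of the argument number `i` of `f`. -/
def ill : Sy → ℕ → Sy → Prop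
  | .s, _, .e => True
  | .s, _, .c => True
  | .c, i, .z => i = 0
  | .c, i, .s => i = 0
  | .c, i, .e => i ≠ 0
  | .c, i, .c => i ≠ 0
  | _, _, _ => False

/-- There is no forbidden pair. -/
def Ground.Ok {S : Signature} (q : S.Sym → ℕ → S.Sym → Prop) : Ground S → Prop
  | .app f a => ∀ i, ¬ q f i.val (a i).head ∧ (a i).Ok q

theorem ok_of_fill {S : Signature} {q : S.Sym → ℕ → S.Sym → Prop} (D : Cx S) {g : Ground S}
    (h : (D.fill g).Ok q) : g.Ok q := by
  induction D with
  | hole => exact h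
  | arg f a i D ih =>
    have := (h i).2
    rw [Function.update_self] at this
    exact ih this

theorem ok_fill {S : Signature} {q : S.Sym → ℕ → S.Sym → Prop} (D : Cx S) {g g' : Ground S}
    (h : (D.fill g).Ok q) (h1 : ∀ f i, ¬ q f i g'.head) (h2 : g'.Ok q) : (D.fill g').Ok q := by
  induction D with
  | hole => exact h2
  | arg f a i D ih =>
    intro j
    have hj := h j
    by_cases e : j = i
    · subst e
      rw [Function.update_self] at hj
      rw [Function.update_self]
      refine ⟨?_, ih hj.2⟩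
      cases D with
      | hole => exact h1 _ _
      | arg f' a' i' D' => exact hj.1
    · rw [Function.update_of_ne e] at hj
      rw [Function.update_of_ne e]
      exact hj

section ok
variable (a : Fin 5 → G) (t u v h : G) (i : Fin 5)

theorem ok_z : gz.Ok (S := Sg) ill := fun i => Fin.elim0 i
theorem ok_e : ge.Ok (S := Sg) ill := fun i => Fin.elim0 i
theorem ok_m : gm.Ok (S := Sg) ill := fun i => Fin.elim0 i
theorem ok_s : (gs t).Ok (S := Sg) ill ↔ ¬ ill Sy.s 0 t.head ∧ t.Ok (S := Sg) ill :=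
  ⟨fun h => h (0 : Fin 1), fun h i => by
    rw [Subsingleton.elim (α := Fin 1) i 0]
    exact h⟩
theorem ok_n : (gn t).Ok (S := Sg) ill ↔ t.Ok (S := Sg) ill :=
  ⟨fun h => (h (0 : Fin 1)).2, fun h _ => ⟨id, h⟩⟩
theorem ok_P : (gP u v).Ok (S := Sg) ill ↔ u.Ok (S := Sg) ill ∧ v.Ok (S := Sg) ill :=
  ⟨fun h => ⟨(h (0 : Fin 2)).2, (h (1 : Fin 2)).2⟩, fun h i =>
    Fin.cases (motive := fun i => ¬ ill Sy.P i.val (Ground.head
      ((Fin.cons u (fun _ => v) : Fin 2 → G) i)) ∧ Ground.Ok (S := Sg) ill
      ((Fin.cons u (fun _ => v) : Fin 2 → G) i)) ⟨id, h.1⟩ (fun _ => ⟨id, h.2⟩) (i : Fin 2)⟩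
theorem ok_c : (gc a h).Ok (S := Sg) ill ↔ (¬ ill Sy.c 0 h.head ∧ h.Ok (S := Sg) ill) ∧
    ∀ j, ¬ ill Sy.c 1 (a j).head ∧ (a j).Ok (S := Sg) ill := by
  constructor
  · intro H
    refine ⟨H (0 : Fin 6), fun j => ?_⟩
    have := H (j.succ : Fin 6)
    refine ⟨fun h' => this.1 ?_, this.2⟩
    change ill Sy.c (j.val + 1) (a j).head
    cases e : (a j).head <;> simp_all [ill]
  · intro H i
    refine Fin.cases (motive := fun i => ¬ ill Sy.c i.val (Ground.head
      ((Fin.cons h a : Fin 6 → G) i)) ∧ Ground.Ok (S := Sg) ill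
      ((Fin.cons h a : Fin 6 → G) i)) H.1 (fun j => ?_) (i : Fin 6)
    refine ⟨fun h' => (H.2 j).1 ?_, (H.2 j).2⟩
    change ill Sy.c (j.val + 1) (a j).head at h'
    cases e : (a j).head <;> simp_all [ill]

end ok

theorem ok_num (k : ℕ) : (num k).Ok (S := Sg) ill := by
  induction k with
  | zero => exact ok_z
  | succ k ih =>
    rw [num_succ, ok_s]
    refine ⟨?_, ih⟩
    rcases k with - | k
    · exact id
    · exact id

theorem ill_bas {f : Sy} {i : ℕ} {f' : Sy} (h : ill f i f') : bas f' := by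
  unfold ill at h
  split at h <;> trivial

/-- A basic term that can be rewritten to a constant `A i` at the root is malformed. -/
theorem not_ok {g : G} {i : Fin 5} (h : Rt K g (gA i)) (hb : bas g.head) :
    ¬ g.Ok (S := Sg) ill := by
  generalize hr : gA i = r at h
  cases h with
  | se => intro h; exact ((ok_s _).1 h).1 trivial
  | sc a h => intro h; exact ((ok_s _).1 h).1 trivial
  | cz a => intro h; exact ((ok_c _ _).1 h).1.1 rfl
  | cs a t => intro h; exact ((ok_c _ _).1 h).1.1 rfl
  | ce a h j ha =>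
    intro h
    apply (((ok_c _ _).1 h).2 j).1
    rw [ha]
    exact one_ne_zero
  | cc a h j a' h' ha =>
    intro h
    apply (((ok_c _ _).1 h).2 j).1
    rw [ha]
    exact one_ne_zero
  | sn t => exact absurd (congrArg Ground.head hr) (by simp)
  | zm => exact absurd (congrArg Ground.head hr) (by simp)
  | fin k hk x => exact absurd (congrArg Ground.head hr) (by simp)
  | err k hk x y h j => exact absurd (congrArg Ground.head hr) (by simp)
  | _ => exact hb.elim

/-- Correct histories. -/
structure Valid (K : List CR) (x : G) : Prop where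
  bas : x.All (S := Sg) bas
  ok : x.Ok (S := Sg) ill
  red : ∀ (D : Cx Sg) (g g' : G), x = D.fill g → Rt K g g' →
    (∃ k, g' = gn (num k)) ∨ g' = gm ∨ ∃ k, g' = gP (num k) (num k)

/-- The three possible results. -/
def Res (g : G) : Prop := (∃ k, g = gn (num k)) ∨ g = gm ∨ ∃ k, g = gP (num k) (num k)

theorem Res.una {g : G} (h : Res g) : g.All (S := Sg) una := by
  rcases h with ⟨k, rfl⟩ | rfl | ⟨k, rfl⟩
  · exact (all_n _ _).2 ⟨trivial, all_num trivial trivial k⟩
  · exact (all_m _).2 trivial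
  · exact (all_P _ _ _).2 ⟨trivial, all_num trivial trivial k, all_num trivial trivial k⟩

theorem Res.noA {g : G} (h : Res g) : g.All (S := Sg) noA := by
  rcases h with ⟨k, rfl⟩ | rfl | ⟨k, rfl⟩
  · exact (all_n _ _).2 ⟨trivial, all_num trivial trivial k⟩
  · exact (all_m _).2 trivial
  · exact (all_P _ _ _).2 ⟨trivial, all_num trivial trivial k, all_num trivial trivial k⟩

theorem Res.noO {g : G} (h : Res g) : g.All (S := Sg) noO := by
  rcases h with ⟨k, rfl⟩ | rfl | ⟨k, rfl⟩
  · exact (all_n _ _).2 ⟨trivial, all_num trivial trivial k⟩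
  · exact (all_m _).2 trivial
  · exact (all_P _ _ _).2 ⟨trivial, all_num trivial trivial k, all_num trivial trivial k⟩

theorem Res.ok {g : G} (h : Res g) : g.Ok (S := Sg) ill := by
  rcases h with ⟨k, rfl⟩ | rfl | ⟨k, rfl⟩
  · exact (ok_n _).2 (ok_num k)
  · exact ok_m
  · exact (ok_P _ _).2 ⟨ok_num k, ok_num k⟩

theorem Res.nbas {g : G} (h : Res g) : ¬ Pool.Agent.Q318.OSR.bas g.head := by
  rcases h with ⟨k, rfl⟩ | rfl | ⟨k, rfl⟩
  · exact id
  · exact id
  · exact id

/-- Nonbasic subterms of a result are the whole term. -/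
theorem Res.sub {g : G} (h : Res g) {E : Cx Sg} {l : G} (e : g = E.fill l)
    (hl : ¬ Pool.Agent.Q318.OSR.bas l.head) : E = .hole := by
  cases E with
  | hole => rfl
  | arg f a i E =>
    exfalso
    apply hl
    have key : ∀ j, ((Function.update a i (E.fill l)) j).All (S := Sg)
        Pool.Agent.Q318.OSR.bas := by
      rcases h with ⟨k, rfl⟩ | rfl | ⟨k, rfl⟩
      · unfold gn at e
        simp only [Cx.fill] at e
        injection e with e1 e2
        subst e1
        have e2 := eq_of_heq e2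
        intro j
        rw [← e2]
        exact all_num trivial trivial k
      · unfold gm at e
        simp only [Cx.fill] at e
        injection e with e1 e2
        subst e1
        exact fun j => Fin.elim0 j
      · unfold gP at e
        simp only [Cx.fill] at e
        injection e with e1 e2
        subst e1
        have e2 := eq_of_heq e2
        intro j
        rw [← e2]
        refine Fin.cases (motive := fun j => Ground.All (S := Sg) Pool.Agent.Q318.OSR.bas
          ((Fin.cons (num k) (fun _ => num k) : Fin 2 → G) j)) ?_ (fun _ => ?_) (j : Fin 2)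
        · exact all_num trivial trivial k
        · exact all_num trivial trivial k
    have := key i
    rw [Function.update_self, all_fill] at this
    exact this.2.head

/-- First step. -/
theorem Valid.step {x y : G} (hx : Valid K x) (h : St K x y) :
    ∃ (D : Cx Sg) (g : G), y = D.fill g ∧ Res g ∧ D.All Pool.Agent.Q318.OSR.bas ∧
      y.Ok (S := Sg) ill := by
  obtain ⟨D, g, g', h', rfl, rfl⟩ := step_rt.1 h
  have hr : Res g' := hx.red D g g' rfl h'
  have hb := hx.bas
  rw [all_fill] at hb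
  refine ⟨D, g', rfl, hr, hb.1, ok_fill D hx.ok ?_ hr.ok⟩
  intro f i hi
  exact hr.nbas (ill_bas hi)

theorem gA_fill {E : Cx Sg} {g : G} {i : Fin 5} (h : gA i = E.fill g) : E = .hole ∧ g = gA i := by
  cases E with
  | hole => exact ⟨rfl, h.symm⟩
  | arg f a j E =>
    exfalso
    unfold gA at h
    simp only [Cx.fill] at h
    injection h with h1 h2
    subst h1
    exact Fin.elim0 j

/-- Second step, to a term with a constant. -/
theorem second {D : Cx Sg} {g w : G} (hg : Res g) (hD : D.All bas)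
    (hok : (D.fill g).Ok (S := Sg) ill) (h : St K (D.fill g) w) (hw : ¬ w.All (S := Sg) noA) :
    ∃ i, w = D.fill (gA i) ∧ Rt K g (gA i) := by
  obtain ⟨E, l, r, h1, h2, rfl⟩ := step_rt.1 h
  have hn : (D.fill g).All (S := Sg) noA := by
    rw [all_fill]
    refine ⟨?_, hg.noA⟩
    have h3 : (D.fill gz).All (S := Sg) bas := by
      rw [all_fill]
      exact ⟨hD, (all_z _).2 trivial⟩
    have h4 := h3.mono fun f hf => noA_of_bas hf
    rw [all_fill] at h4
    exact h4.1
  rw [h2, all_fill] at hn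
  rcases rt_noA h1 hn.2 with ⟨i, rfl⟩ | h3
  · have hl : ¬ bas l.head := by
      intro hl
      apply not_ok h1 hl
      rw [h2] at hok
      exact ok_of_fill E hok
    obtain ⟨E', h3, h4⟩ := fill_eq_fill D hD E g l hl h2
    have h5 := hg.sub h4 hl
    subst h5
    refine ⟨i, h3 _, ?_⟩
    rw [h4]
    exact h1
  · exact absurd ((all_fill _ _ _).2 ⟨hn.1, h3⟩) hw

theorem astep_noA {w w1 : G} (h : AStep w w1) : ¬ w.All (S := Sg) noA := by
  obtain ⟨D, i, rfl, -⟩ := h
  rw [all_fill, all_A]
  exact fun h => h.2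

theorem astep_fill {D : Cx Sg} (hD : D.All bas) {i : Fin 5} {w1 : G}
    (h : AStep (D.fill (gA i)) w1) : w1 = D.fill (gA (i + 1)) := by
  obtain ⟨E, j, h1, rfl⟩ := h
  obtain ⟨E', h2, h3⟩ := fill_eq_fill D hD E (gA i) (gA j) id h1
  obtain ⟨rfl, h4⟩ := gA_fill h3
  rw [h2]
  obtain rfl := gA_inj h4
  rfl

theorem pred {D : Cx Sg} (hD : D.All bas) {i : Fin 5} {y : G} (hy : y.All (S := Sg) noO)
    (h : St K y (D.fill (gA i))) : ∃ g, y = D.fill g ∧ Rt K g (gA i) := by
  obtain ⟨E, l, r, h1, rfl, h2⟩ := step_rt.1 h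
  rw [all_fill] at hy
  obtain ⟨E', h3, h4⟩ := fill_eq_fill D hD E (gA i) r (rt_noO h1 hy.2).2 h2
  obtain ⟨rfl, h5⟩ := gA_fill h4
  refine ⟨l, h3 l, ?_⟩
  rw [← h5]
  exact h1

theorem mid {D : Cx Sg} (hD : D.All bas) {g g' : G} (hy : (D.fill g).All (S := Sg) noO)
    (h : St K (D.fill g) (D.fill g')) : St K g g' := by
  obtain ⟨E, l, r, h1, h2, h3⟩ := step_rt.1 h
  have hy' := hy
  rw [h2, all_fill] at hy'
  obtain ⟨E', h4, h5⟩ := fill_eq_fill D hD E g' r (rt_noO h1 hy'.2).2 h3
  rw [h4] at h2
  have h6 := fill_inj D h2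
  exact step_rt.2 ⟨E', l, r, h1, h6, h5⟩

/-- `P`-terms are obtained from `P`-terms, if there are no histories around. -/
theorem st_P {g a' b' : G} (hg : g.All (S := Sg) una) (h : St K g (gP a' b')) :
    ∃ a b, g = gP a b ∧ ((St K a a' ∧ b = b') ∨ (a = a' ∧ St K b b')) := by
  obtain ⟨E, l, r, h1, rfl, h2⟩ := step_rt.1 h
  cases E with
  | hole =>
    exfalso
    change gP a' b' = r at h2
    change l.All (S := Sg) una at hg
    cases h1 with
    | Lx t => exact hg.1
    | fin k hk x => exact hg.1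
    | err k hk x y h j => exact hg.1
    | _ => exact absurd (congrArg Ground.head h2) (by simp)
  | arg f a i E =>
    simp only [Cx.fill] at h2 ⊢
    unfold gP at h2
    injection h2 with e1 e2
    subst e1
    have e2 := eq_of_heq e2
    have hs : St K (E.fill l) (E.fill r) := h1.fill E
    change Fin 2 at i
    change Fin 2 → G at a
    have hc : i = 0 ∨ i = 1 := by
      revert i
      intro i
      fin_cases i <;> simp
    rcases hc with rfl | rfl
    · refine ⟨E.fill l, a 1, ?_, .inl ⟨?_, ?_⟩⟩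
      · refine (eta_P _).trans ?_
        congr 1
      · have := congrFun e2 (0 : Fin 2)
        change a' = _ at this
        rw [this]
        exact hs
      · have := congrFun e2 (1 : Fin 2)
        exact this.symm
    · refine ⟨a 0, E.fill l, ?_, .inr ⟨?_, ?_⟩⟩
      · refine (eta_P _).trans ?_
        congr 1
      · have := congrFun e2 (0 : Fin 2)
        exact this.symm
      · have := congrFun e2 (1 : Fin 2)
        change b' = _ at this
        rw [this]
        exact hs

end Pool.Agent.Q318.OSR
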