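import Pool.Agent.Q318.OSR.Sound

set_option autoImplicit false

/-! Soundness, continued. -/

namespace Pool.Agent.Q318.OSR

variable {K : List CR}

def wS : Sy → ℕ := fun _ => 1
def wG : Sy → ℕ
  | .n | .m => 1
  | _ => 0
def wA : Sy → ℕ
  | .A _ => 1
  | _ => 0

theorem sz_pos (t : G) : 1 ≤ t.cnt (S := Sg) wS := by
  obtain ⟨f, a⟩ := t
  simp only [Ground.cnt, wS]
  omega

theorem rt_eff {g g' : G} (h : Rt K g g') (hg : g.All (S := Sg) una) :
    (g'.cnt (S := Sg) wS = g.cnt (S := Sg) wS ∧ g'.cnt (S := Sg) wG = g.cnt (S := Sg) wG + 1 ∧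
      g'.cnt (S := Sg) wA = g.cnt (S := Sg) wA) ∨
    g'.cnt (S := Sg) wS < g.cnt (S := Sg) wS ∨ 1 ≤ g'.cnt (S := Sg) wA := by
  cases h with
  | sn t =>
    left
    refine ⟨?_, ?_, ?_⟩
    · rw [cnt_s, cnt_n]; rfl
    · rw [cnt_s, cnt_n]; simp only [wG]; omega
    · rw [cnt_s, cnt_n]; rfl
  | zm =>
    left
    refine ⟨?_, ?_, ?_⟩
    · rw [cnt_z, cnt_m]; rfl
    · rw [cnt_z, cnt_m]; rfl
    · rw [cnt_z, cnt_m]; rfl
  | nm t =>
    right; left
    have := sz_pos t
    simp only [cnt_n, cnt_m, wS] at this ⊢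
    omega
  | Lx t => exact hg.1.elim
  | LM t => exact hg.1.elim
  | YM u v => exact hg.1.elim
  | YL u v => exact hg.1.elim
  | fin k hk x => exact hg.1.elim
  | err k hk x y h j => exact hg.1.elim
  | _ => right; right; rw [cnt_A]; exact le_refl 1

theorem st_eff {g g' : G} (h : St K g g') (hg : g.All (S := Sg) una) :
    (g'.cnt (S := Sg) wS = g.cnt (S := Sg) wS ∧ g'.cnt (S := Sg) wG = g.cnt (S := Sg) wG + 1 ∧
      g'.cnt (S := Sg) wA = g.cnt (S := Sg) wA) ∨
    g'.cnt (S := Sg) wS < g.cnt (S := Sg) wS ∨ 1 ≤ g'.cnt (S := Sg) wA := by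
  obtain ⟨D, l, r, h', rfl, rfl⟩ := step_rt.1 h
  rw [all_fill] at hg
  obtain ⟨a, ha⟩ := cnt_fill (S := Sg) wS D
  obtain ⟨b, hb⟩ := cnt_fill (S := Sg) wG D
  obtain ⟨c, hc⟩ := cnt_fill (S := Sg) wA D
  rw [ha, ha, hb, hb, hc, hc]
  have := rt_eff h' hg.2
  omega

/-- Symbols of numerals. -/
def nu : Sy → Prop
  | .z | .s => True
  | _ => False

theorem rt_nu {g g' : G} (h : Rt K g g') (hg : g.All (S := Sg) nu) :
    g'.cnt (S := Sg) wS = g.cnt (S := Sg) wS ∧ g'.cnt (S := Sg) wG = g.cnt (S := Sg) wG + 1 ∧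
      g'.cnt (S := Sg) wA = g.cnt (S := Sg) wA := by
  cases h with
  | sn t =>
    refine ⟨?_, ?_, ?_⟩
    · rw [cnt_s, cnt_n]; rfl
    · rw [cnt_s, cnt_n]; simp only [wG]; omega
    · rw [cnt_s, cnt_n]; rfl
  | zm =>
    refine ⟨?_, ?_, ?_⟩
    · rw [cnt_z, cnt_m]; rfl
    · rw [cnt_z, cnt_m]; rfl
    · rw [cnt_z, cnt_m]; rfl
  | se => rw [all_s, all_e] at hg; exact hg.2.elim
  | sc a h => rw [all_s] at hg; exact hg.2.1.elim
  | Lx t => exact hg.1.elim
  | _ => exact hg.1.elim

theorem cnt_num_G (k : ℕ) : (num k).cnt (S := Sg) wG = 0 := by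
  unfold num
  rw [cnt_N, cnt_z]
  simp [wG]

theorem cnt_num_A (k : ℕ) : (num k).cnt (S := Sg) wA = 0 := by
  unfold num
  rw [cnt_N, cnt_z]
  simp [wA]

theorem first_num {k : ℕ} {t : G} (h : St K (num k) t) :
    t.cnt (S := Sg) wS = (num k).cnt (S := Sg) wS ∧ t.cnt (S := Sg) wG = 1 ∧
      t.cnt (S := Sg) wA = 0 := by
  have hn : (num k).All (S := Sg) nu := all_num trivial trivial k
  obtain ⟨D, l, r, h', e1, rfl⟩ := step_rt.1 h
  have e2 := cnt_num_G k
  have e3 := cnt_num_A k
  rw [e1] at hn e2 e3 ⊢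
  rw [all_fill] at hn
  obtain ⟨a, ha⟩ := cnt_fill (S := Sg) wS D
  obtain ⟨b, hb⟩ := cnt_fill (S := Sg) wG D
  obtain ⟨c, hc⟩ := cnt_fill (S := Sg) wA D
  rw [hb] at e2
  rw [hc] at e3
  rw [ha, ha, hb, hc]
  have := rt_nu h' hn.2
  omega

/-- Results of one and of two steps are different. -/
theorem one_two {k : ℕ} {t s : G} (h1 : St K (num k) t) (h2 : St K (num k) s) (h3 : St K s t) :
    False := by
  have f1 := first_num h1
  have f2 := first_num h2
  have hs : s.All (S := Sg) una := st_una h2 (all_num trivial trivial k)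
  have := st_eff h3 hs
  omega

/-- Three steps do not lead back. -/
theorem three {k : ℕ} {s t : G} (h1 : St K (num k) s) (h2 : St K s t) (h3 : St K t (num k)) :
    False := by
  obtain ⟨B, hB, hK⟩ := exists_bound K
  have f : ∀ {x y : G}, St K x y → y.cnt (S := Sg) (wt B) ≤ x.cnt (S := Sg) (wt B) := fun h => by
    rcases st_cnt hB hK h with h | h
    · exact h.2.le
    · exact h.le
  have g2 := f h2
  have g3 := f h3
  rcases st_cnt hB hK h1 with h | h
  · exact astep_noA h.1 (all_num trivial trivial k)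
  · omega

/-! ### The two tests -/

/-- Garbage or malformed. -/
def Gam (K : List CR) (x : G) : Prop := ∃ w w1, St K x w ∧ Cyc K w w1

/-- There is an error. -/
def Psi (K : List CR) (x : G) : Prop :=
  ∃ y0 y1 y2 y3 w w1, St K x y0 ∧ St K y0 y1 ∧ St K y1 y2 ∧ St K y2 y3 ∧ St K y0 w ∧ St K y1 w ∧
    St K y2 w ∧ St K y3 w ∧ St K y3 w1 ∧ Cyc K w w1

theorem res_A {g : G} (hg : Res g) {i : Fin 5} (h : Rt K g (gA i)) : i = 3 ∨ i = 4 := by
  generalize hr : gA i = r at h
  rcases hg with ⟨k, rfl⟩ | rfl | ⟨k, rfl⟩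
  · generalize hl : gn (num k) = l at h
    cases h with
    | nA t => exact .inl (gA_inj hr)
    | nm t => exact absurd (congrArg Ground.head hr) (by simp)
    | Lx t => exact absurd (congrArg Ground.head hl) (by simp)
    | _ => exact absurd (congrArg Ground.head hl) (by simp)
  · generalize hl : gm = l at h
    cases h with
    | mA => exact .inl (gA_inj hr)
    | Lx t => exact absurd (congrArg Ground.head hl) (by simp)
    | _ => exact absurd (congrArg Ground.head hl) (by simp)
  · generalize hl : gP (num k) (num k) = l at h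
    cases h with
    | PA u v => exact .inl (gA_inj hr)
    | PE u => exact .inr (gA_inj hr)
    | Lx t => exact absurd (congrArg Ground.head hl) (by simp)
    | _ => exact absurd (congrArg Ground.head hl) (by simp)

theorem not_rt_AA {i j : Fin 5} (h : Rt K (gA i) (gA j)) : j = i + 1 := by
  generalize hl : gA i = l at h
  generalize hr : gA j = r at h
  cases h with
  | AA i' => rw [gA_inj hr, gA_inj hl]
  | Lx t => exact absurd (congrArg Ground.head hl) (by simp)
  | _ => exact absurd (congrArg Ground.head hl) (by simp)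

theorem both {g : G} (hg : g.All (S := Sg) noO) {i : Fin 5} (hi : i = 3 ∨ i = 4)
    (h : Rt K g (gA i)) (h' : Rt K g (gA (i + 1))) : ∃ t, g = gP t t := by
  rcases hi with rfl | rfl
  · generalize hr : gA (3 + 1) = r at h'
    cases h' with
    | PE u => exact ⟨u, rfl⟩
    | AA i =>
      exfalso
      have h1 := not_rt_AA h
      have h2 := gA_inj hr
      rw [← h1] at h2
      exact absurd h2 (by decide)
    | nA t => exact absurd (gA_inj hr) (by decide)
    | mA => exact absurd (gA_inj hr) (by decide)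
    | PA u v => exact absurd (gA_inj hr) (by decide)
    | se => exact absurd (gA_inj hr) (by decide)
    | sc a h => exact absurd (gA_inj hr) (by decide)
    | cz a => exact absurd (gA_inj hr) (by decide)
    | cs a t => exact absurd (gA_inj hr) (by decide)
    | ce a h j ha => exact absurd (gA_inj hr) (by decide)
    | cc a h j a' h' ha => exact absurd (gA_inj hr) (by decide)
    | sn t => exact absurd (congrArg Ground.head hr) (by simp)
    | zm => exact absurd (congrArg Ground.head hr) (by simp)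
    | nm t => exact absurd (congrArg Ground.head hr) (by simp)
    | fin k hk x => exact absurd (congrArg Ground.head hr) (by simp)
    | err k hk x y h j => exact absurd (congrArg Ground.head hr) (by simp)
    | _ => exact hg.1.elim
  · generalize hr : gA (4 + 1) = r at h'
    cases h' with
    | PE u => exact ⟨u, rfl⟩
    | AA i =>
      exfalso
      have := not_rt_AA h
      have h2 := gA_inj hr
      rw [← this] at h2
      exact absurd h2 (by decide)
    | nA t => exact absurd (gA_inj hr) (by decide)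
    | mA => exact absurd (gA_inj hr) (by decide)
    | PA u v => exact absurd (gA_inj hr) (by decide)
    | se => exact absurd (gA_inj hr) (by decide)
    | sc a h => exact absurd (gA_inj hr) (by decide)
    | cz a => exact absurd (gA_inj hr) (by decide)
    | cs a t => exact absurd (gA_inj hr) (by decide)
    | ce a h j ha => exact absurd (gA_inj hr) (by decide)
    | cc a h j a' h' ha => exact absurd (gA_inj hr) (by decide)
    | sn t => exact absurd (congrArg Ground.head hr) (by simp)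
    | zm => exact absurd (congrArg Ground.head hr) (by simp)
    | nm t => exact absurd (congrArg Ground.head hr) (by simp)
    | fin k hk x => exact absurd (congrArg Ground.head hr) (by simp)
    | err k hk x y h j => exact absurd (congrArg Ground.head hr) (by simp)
    | _ => exact hg.1.elim

theorem Valid.not_gam {x : G} (hx : Valid K x) : ¬ Gam K x := by
  rintro ⟨w, w1, h1, h2⟩
  obtain ⟨D, g, rfl, hg, hD, hok⟩ := hx.step h1
  apply astep_noA h2.astep
  rw [all_fill]
  refine ⟨?_, hg.noA⟩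
  have h3 : (D.fill gz).All (S := Sg) Pool.Agent.Q318.OSR.bas := by
    rw [all_fill]
    exact ⟨hD, (all_z _).2 trivial⟩
  have h4 := h3.mono fun f hf => noA_of_bas hf
  rw [all_fill] at h4
  exact h4.1

theorem Valid.not_psi {x : G} (hx : Valid K x) : ¬ Psi K x := by
  rintro ⟨y0, y1, y2, y3, w, w1, hx0, h01, h12, h23, h0, h1, h2, h3, h4, hc⟩
  have n0 := st_noO hx0 (hx.bas.mono fun f hf => noO_of_bas hf)
  have n1 := st_noO h01 n0
  have n2 := st_noO h12 n1
  have n3 := st_noO h23 n2
  obtain ⟨D, g0, rfl, r0, hD, hok⟩ := hx.step hx0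
  obtain ⟨i, rfl, a0⟩ := second r0 hD hok h0 (astep_noA hc.astep)
  obtain rfl := astep_fill hD hc.astep
  obtain ⟨g1, rfl, a1⟩ := pred hD n1 h1
  obtain ⟨g2, rfl, a2⟩ := pred hD n2 h2
  obtain ⟨g3, rfl, a3⟩ := pred hD n3 h3
  obtain ⟨g3', e3, a3'⟩ := pred hD n3 h4
  obtain rfl := fill_inj D e3
  have s01 := mid hD n0 h01
  have s12 := mid hD n1 h12
  have s23 := mid hD n2 h23
  have hi := res_A r0 a0
  obtain ⟨t, rfl⟩ := both ((all_fill _ _ _).1 n3).2 hi a3 a3'
  have u0 := r0.una
  have u1 := st_una s01 u0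
  have u2 := st_una s12 u1
  obtain ⟨a2', b2', rfl, c2⟩ := st_P u2 s23
  obtain ⟨a1', b1', rfl, c1⟩ := st_P u1 s12
  obtain ⟨a0', b0', rfl, c0⟩ := st_P u0 s01
  have hr : ∃ k, a0' = num k ∧ b0' = num k := by
    rcases r0 with ⟨k, e⟩ | e | ⟨k, e⟩
    · exact absurd (congrArg Ground.head e) (by simp)
    · exact absurd (congrArg Ground.head e) (by simp)
    · obtain ⟨e1, e2⟩ := gP_inj e
      exact ⟨k, e1, e2⟩
  obtain ⟨k, rfl, rfl⟩ := hr
  rcases c0 with ⟨c0, rfl⟩ | ⟨rfl, c0⟩ <;> rcases c1 with ⟨c1, rfl⟩ | ⟨rfl, c1⟩ <;>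
    rcases c2 with ⟨c2, rfl⟩ | ⟨rfl, c2⟩
  · exact three c0 c1 c2
  · exact one_two c2 c0 c1
  · exact one_two c1 c0 c2
  · exact one_two c0 c1 c2
  · exact one_two c0 c1 c2
  · exact one_two c1 c0 c2
  · exact one_two c2 c0 c1
  · exact three c0 c1 c2

end Pool.Agent.Q318.OSR
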