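import Pool.Agent.Q318.OSR.Ctx

set_option autoImplicit false

/-! The rewrite system. -/

namespace Pool.Agent.Q318.OSR

/-- The function symbols. -/
inductive Sy : Type
  | z | s | e | c | P | n | m
  | A (i : Fin 5)
  | L | M | Y
  deriving DecidableEq

/-- The arities. -/
def ari : Sy → ℕ
  | .z => 0
  | .s => 1
  | .e => 0
  | .c => 6
  | .P => 2
  | .n => 1
  | .m => 0
  | .A _ => 0
  | .L => 1
  | .M => 1
  | .Y => 2

/-- The signature. -/
abbrev Sg : Signature := ⟨Sy, ari⟩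

abbrev G : Type := Ground Sg
abbrev T : Type := Term Sg

instance : Finite Sy := by
  refine Finite.of_injective (β := Fin 11 × Fin 5) (fun x => match x with
    | .z => (0, 0) | .s => (1, 0) | .e => (2, 0) | .c => (3, 0) | .P => (4, 0) | .n => (5, 0)
    | .m => (6, 0) | .A i => (7, i) | .L => (8, 0) | .M => (9, 0) | .Y => (10, 0)) ?_
  intro x y h
  cases x <;> cases y <;> simp_all

/-! ### Ground terms -/

def gz : G := .app (S := Sg) Sy.z (Fin.elim0 : Fin 0 → G)
def gs (t : G) : G := .app (S := Sg) Sy.s ((fun _ => t) : Fin 1 → G)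
def ge : G := .app (S := Sg) Sy.e (Fin.elim0 : Fin 0 → G)
def gc (a : Fin 5 → G) (h : G) : G := .app (S := Sg) Sy.c (Fin.cons h a : Fin 6 → G)
def gP (u v : G) : G := .app (S := Sg) Sy.P (Fin.cons u (fun _ => v) : Fin 2 → G)
def gn (t : G) : G := .app (S := Sg) Sy.n ((fun _ => t) : Fin 1 → G)
def gm : G := .app (S := Sg) Sy.m (Fin.elim0 : Fin 0 → G)
def gA (i : Fin 5) : G := .app (S := Sg) (Sy.A i) (Fin.elim0 : Fin 0 → G)
def gL (t : G) : G := .app (S := Sg) Sy.L ((fun _ => t) : Fin 1 → G)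
def gM (t : G) : G := .app (S := Sg) Sy.M ((fun _ => t) : Fin 1 → G)
def gY (u v : G) : G := .app (S := Sg) Sy.Y (Fin.cons u (fun _ => v) : Fin 2 → G)

/-! ### Patterns -/

def pz : T := .app (S := Sg) Sy.z (Fin.elim0 : Fin 0 → T)
def ps (t : T) : T := .app (S := Sg) Sy.s ((fun _ => t) : Fin 1 → T)
def pe : T := .app (S := Sg) Sy.e (Fin.elim0 : Fin 0 → T)
def pc (a : Fin 5 → T) (h : T) : T := .app (S := Sg) Sy.c (Fin.cons h a : Fin 6 → T)
def pP (u v : T) : T := .app (S := Sg) Sy.P (Fin.cons u (fun _ => v) : Fin 2 → T)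
def pn (t : T) : T := .app (S := Sg) Sy.n ((fun _ => t) : Fin 1 → T)
def pm : T := .app (S := Sg) Sy.m (Fin.elim0 : Fin 0 → T)
def pA (i : Fin 5) : T := .app (S := Sg) (Sy.A i) (Fin.elim0 : Fin 0 → T)
def pL (t : T) : T := .app (S := Sg) Sy.L ((fun _ => t) : Fin 1 → T)
def pM (t : T) : T := .app (S := Sg) Sy.M ((fun _ => t) : Fin 1 → T)
def pY (u v : T) : T := .app (S := Sg) Sy.Y (Fin.cons u (fun _ => v) : Fin 2 → T)
abbrev pv (i : ℕ) : T := .var i

/-- Iterated successors. -/
def gN : ℕ → G → G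
  | 0, t => t
  | k + 1, t => gs (gN k t)

def pN : ℕ → T → T
  | 0, t => t
  | k + 1, t => ps (pN k t)

/-- Numerals. -/
def num (k : ℕ) : G := gN k gz

/-! ### Instances -/

section inst
variable (σ : ℕ → G)

theorem inst_var (i : ℕ) : (pv i).inst σ = σ i := rfl

theorem inst_z : pz.inst σ = gz := by
  unfold pz gz
  simp only [Term.inst]
  congr 1
  funext i
  exact Fin.elim0 i

theorem inst_s (t : T) : (ps t).inst σ = gs (t.inst σ) := rfl

theorem inst_e : pe.inst σ = ge := by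
  unfold pe ge
  simp only [Term.inst]
  congr 1
  funext i
  exact Fin.elim0 i

theorem inst_c (a : Fin 5 → T) (h : T) :
    (pc a h).inst σ = gc (fun i => (a i).inst σ) (h.inst σ) := by
  unfold pc gc
  simp only [Term.inst]
  congr 1
  funext i
  refine Fin.cases ?_ (fun j => ?_) (i : Fin 6)
  · rfl
  · rfl

theorem inst_P (u v : T) : (pP u v).inst σ = gP (u.inst σ) (v.inst σ) := by
  unfold pP gP
  simp only [Term.inst]
  congr 1
  funext i
  refine Fin.cases ?_ (fun j => ?_) (i : Fin 2)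
  · rfl
  · rfl

theorem inst_n (t : T) : (pn t).inst σ = gn (t.inst σ) := rfl

theorem inst_m : pm.inst σ = gm := by
  unfold pm gm
  simp only [Term.inst]
  congr 1
  funext i
  exact Fin.elim0 i

theorem inst_A (k : Fin 5) : (pA k).inst σ = gA k := by
  unfold pA gA
  simp only [Term.inst]
  congr 1
  funext i
  exact Fin.elim0 i

theorem inst_L (t : T) : (pL t).inst σ = gL (t.inst σ) := rfl
theorem inst_M (t : T) : (pM t).inst σ = gM (t.inst σ) := rfl

theorem inst_Y (u v : T) : (pY u v).inst σ = gY (u.inst σ) (v.inst σ) := by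
  unfold pY gY
  simp only [Term.inst]
  congr 1
  funext i
  refine Fin.cases ?_ (fun j => ?_) (i : Fin 2)
  · rfl
  · rfl

theorem inst_N (k : ℕ) (t : T) : (pN k t).inst σ = gN k (t.inst σ) := by
  induction k with
  | zero => rfl
  | succ k ih => simp only [pN, gN, inst_s, ih]

end inst

/-! ### Eta rules -/

theorem eta_z (a : Fin (Sg.ar Sy.z) → G) : Ground.app (S := Sg) Sy.z a = gz := by
  unfold gz
  congr 1
  funext i
  exact Fin.elim0 i

theorem eta_s (a : Fin (Sg.ar Sy.s) → G) : Ground.app (S := Sg) Sy.s a = gs (a (0 : Fin 1)) := by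
  unfold gs
  congr 1
  funext i
  rw [Subsingleton.elim (α := Fin 1) i 0]

theorem eta_e (a : Fin (Sg.ar Sy.e) → G) : Ground.app (S := Sg) Sy.e a = ge := by
  unfold ge
  congr 1
  funext i
  exact Fin.elim0 i

theorem eta_c (a : Fin (Sg.ar Sy.c) → G) :
    Ground.app (S := Sg) Sy.c a = gc (fun j => a (j.succ : Fin 6)) (a (0 : Fin 6)) := by
  unfold gc
  congr 1
  funext i
  refine Fin.cases ?_ (fun j => ?_) (i : Fin 6)
  · rfl
  · rfl

theorem eta_P (a : Fin (Sg.ar Sy.P) → G) :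
    Ground.app (S := Sg) Sy.P a = gP (a (0 : Fin 2)) (a (1 : Fin 2)) := by
  unfold gP
  congr 1
  funext i
  refine Fin.cases ?_ (fun j => ?_) (i : Fin 2)
  · rfl
  · rw [Subsingleton.elim (α := Fin 1) j 0]
    rfl

theorem eta_n (a : Fin (Sg.ar Sy.n) → G) : Ground.app (S := Sg) Sy.n a = gn (a (0 : Fin 1)) := by
  unfold gn
  congr 1
  funext i
  rw [Subsingleton.elim (α := Fin 1) i 0]

theorem eta_m (a : Fin (Sg.ar Sy.m) → G) : Ground.app (S := Sg) Sy.m a = gm := by
  unfold gm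
  congr 1
  funext i
  exact Fin.elim0 i

theorem eta_A (k : Fin 5) (a : Fin (Sg.ar (Sy.A k)) → G) :
    Ground.app (S := Sg) (Sy.A k) a = gA k := by
  unfold gA
  congr 1
  funext i
  exact Fin.elim0 i

theorem eta_L (a : Fin (Sg.ar Sy.L) → G) : Ground.app (S := Sg) Sy.L a = gL (a (0 : Fin 1)) := by
  unfold gL
  congr 1
  funext i
  rw [Subsingleton.elim (α := Fin 1) i 0]

theorem eta_M (a : Fin (Sg.ar Sy.M) → G) : Ground.app (S := Sg) Sy.M a = gM (a (0 : Fin 1)) := by
  unfold gM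
  congr 1
  funext i
  rw [Subsingleton.elim (α := Fin 1) i 0]

theorem eta_Y (a : Fin (Sg.ar Sy.Y) → G) :
    Ground.app (S := Sg) Sy.Y a = gY (a (0 : Fin 2)) (a (1 : Fin 2)) := by
  unfold gY
  congr 1
  funext i
  refine Fin.cases ?_ (fun j => ?_) (i : Fin 2)
  · rfl
  · rw [Subsingleton.elim (α := Fin 1) j 0]
    rfl

/-! ### Machine rules and rewrite rules -/

/-- A rule of a machine with five counters: it is applicable to `v` if `v j = al j` for all `j` with
`ex j = true` and `v j ≥ al j` for all others, and it replaces `v j` by `be j + (v j - al j)`. -/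
structure CR where
  ex : Fin 5 → Bool
  al : Fin 5 → ℕ
  be : Fin 5 → ℕ

/-- Applicability. -/
def CR.mt (k : CR) (v : Fin 5 → ℕ) : Prop :=
  ∀ j, k.al j ≤ v j ∧ (k.ex j = true → v j = k.al j)

/-- Result. -/
def CR.rs (k : CR) (v : Fin 5 → ℕ) : Fin 5 → ℕ := fun j => k.be j + (v j - k.al j)

def pX (k : CR) (j : Fin 5) : T := if k.ex j = true then pz else pv j
def pB (k : CR) : Fin 5 → T := fun i => pN (k.al i) (pX k i)

/-- The rules that do not depend on the machine. -/
def fixedRules : List (T × T) :=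
  [(ps (pv 0), pn (pv 0)), (pz, pm), (pn (pv 0), pm), (pn (pv 0), pA 3), (pm, pA 3),
   (pP (pv 0) (pv 1), pA 3), (pP (pv 0) (pv 0), pA 4),
   (pA 0, pA 1), (pA 1, pA 2), (pA 2, pA 3), (pA 3, pA 4), (pA 4, pA 0),
   (ps pe, pA 3), (ps (pc (fun i => pv i) (pv 5)), pA 3),
   (pc (fun i => pv i) pz, pA 3), (pc (fun i => pv i) (ps (pv 5)), pA 3),
   (pL (pv 0), pv 0), (pL (pv 0), pA 0), (pL (pv 0), pM (pv 0)),
   (pM (pv 0), pA 2), (pM pz, pA 3), (pM (ps (pv 0)), pA 3), (pM pe, pA 3), (pM pz, pA 4),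
   (pY (pv 0) (pv 1), pA 3), (pY (pv 0) (pv 1), pM (pv 0)), (pY (pv 0) (pv 1), pL (pv 1)),
   (pY (ps (pv 0)) (pv 0), pA 1),
   (pY (pc (fun i => pv i) (pv 5)) (pv 1), pA 1)]

def jRules (j : Fin 5) : List (T × T) :=
  [(pc (fun i => if i = j then pe else pv i) (pv 5), pA 3),
   (pc (fun i => if i = j then pc (fun i' => pv (6 + i')) (pv 11) else pv i) (pv 5), pA 3)] ++
  if j = 1 then [] else [(pM (pc (fun i => if i = j then ps (pv i) else pv i) (pv 5)), pA 3)]

def kRules (k : CR) : List (T × T) :=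
  (pc (pB k) pe, pP pz (ps pz)) ::
  (List.finRange 5).map fun j => (pc (pB k) (pc (fun i => pv (6 + i)) (pv 11)),
    pP (pN (k.be j) (pX k j)) (pv (6 + j)))

/-- The rewrite system. -/
def RR (K : List CR) : List (T × T) :=
  fixedRules ++ (List.finRange 5).flatMap jRules ++ K.flatMap kRules

def gX (k : CR) (x : Fin 5 → G) (j : Fin 5) : G := if k.ex j = true then gz else x j
def gB (k : CR) (x : Fin 5 → G) : Fin 5 → G := fun i => gN (k.al i) (gX k x i)

/-- The instances of the rules. -/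
inductive Rt (K : List CR) : G → G → Prop
  | sn (t : G) : Rt K (gs t) (gn t)
  | zm : Rt K gz gm
  | nm (t : G) : Rt K (gn t) gm
  | nA (t : G) : Rt K (gn t) (gA 3)
  | mA : Rt K gm (gA 3)
  | PA (u v : G) : Rt K (gP u v) (gA 3)
  | PE (u : G) : Rt K (gP u u) (gA 4)
  | AA (i : Fin 5) : Rt K (gA i) (gA (i + 1))
  | se : Rt K (gs ge) (gA 3)
  | sc (a : Fin 5 → G) (h : G) : Rt K (gs (gc a h)) (gA 3)
  | cz (a : Fin 5 → G) : Rt K (gc a gz) (gA 3)
  | cs (a : Fin 5 → G) (t : G) : Rt K (gc a (gs t)) (gA 3)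
  | ce (a : Fin 5 → G) (h : G) (j : Fin 5) (ha : a j = ge) : Rt K (gc a h) (gA 3)
  | cc (a : Fin 5 → G) (h : G) (j : Fin 5) (a' : Fin 5 → G) (h' : G) (ha : a j = gc a' h') :
      Rt K (gc a h) (gA 3)
  | Lx (t : G) : Rt K (gL t) t
  | LA (t : G) : Rt K (gL t) (gA 0)
  | LM (t : G) : Rt K (gL t) (gM t)
  | MA (t : G) : Rt K (gM t) (gA 2)
  | Mz : Rt K (gM gz) (gA 3)
  | Ms (t : G) : Rt K (gM (gs t)) (gA 3)
  | Me : Rt K (gM ge) (gA 3)
  | Mc (a : Fin 5 → G) (h : G) (j : Fin 5) (t : G) (hj : j ≠ 1) (ha : a j = gs t) :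
      Rt K (gM (gc a h)) (gA 3)
  | M0 : Rt K (gM gz) (gA 4)
  | YA (u v : G) : Rt K (gY u v) (gA 3)
  | YM (u v : G) : Rt K (gY u v) (gM u)
  | YL (u v : G) : Rt K (gY u v) (gL v)
  | Ys (t : G) : Rt K (gY (gs t) t) (gA 1)
  | Yc (a : Fin 5 → G) (h : G) : Rt K (gY (gc a h) (a 1)) (gA 1)
  | fin (k : CR) (hk : k ∈ K) (x : Fin 5 → G) : Rt K (gc (gB k x) ge) (gP gz (gs gz))
  | err (k : CR) (hk : k ∈ K) (x y : Fin 5 → G) (h : G) (j : Fin 5) :
      Rt K (gc (gB k x) (gc y h)) (gP (gN (k.be j) (gX k x j)) (y j))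

/-- Substitution from components. -/
def mkσ (a : Fin 5 → G) (h : G) (b : Fin 5 → G) (h' : G) : ℕ → G := fun k =>
  if h0 : k < 5 then a ⟨k, h0⟩ else if k = 5 then h else if h1 : k - 6 < 5 then b ⟨k - 6, h1⟩ else h'

section mk
variable (a : Fin 5 → G) (h : G) (b : Fin 5 → G) (h' : G)

theorem mkσ_a (i : Fin 5) : mkσ a h b h' i = a i := by
  unfold mkσ
  rw [dif_pos i.2]

theorem mkσ_5 : mkσ a h b h' 5 = h := by
  unfold mkσ
  simp

theorem mkσ_b (i : Fin 5) : mkσ a h b h' (6 + i) = b i := by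
  unfold mkσ
  rw [dif_neg (by omega), if_neg (by omega), dif_pos (by omega)]
  congr 1
  ext
  simp

theorem mkσ_11 : mkσ a h b h' 11 = h' := by
  unfold mkσ
  simp

end mk

theorem inst_X (k : CR) (σ : ℕ → G) (j : Fin 5) : (pX k j).inst σ = gX k (fun i => σ i) j := by
  unfold pX gX
  split_ifs
  · exact inst_z σ
  · rfl

theorem inst_B (k : CR) (σ : ℕ → G) : (fun i => (pB k i).inst σ) = gB k (fun i => σ i) := by
  funext i
  unfold pB gB
  rw [inst_N, inst_X]

theorem rt_of_mem {K : List CR} {ρ : T × T} (hρ : ρ ∈ RR K) (σ : ℕ → G) :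
    Rt K (ρ.1.inst σ) (ρ.2.inst σ) := by
  unfold RR at hρ
  simp only [List.mem_append, List.mem_flatMap] at hρ
  rcases hρ with (h | ⟨j, -, h⟩) | ⟨k, hk, h⟩
  · unfold fixedRules at h
    simp only [List.mem_cons, List.not_mem_nil, or_false] at h
    rcases h with rfl | rfl | rfl | rfl | rfl | rfl | rfl | rfl | rfl | rfl | rfl | rfl | rfl | rfl |
      rfl | rfl | rfl | rfl | rfl | rfl | rfl | rfl | rfl | rfl | rfl | rfl | rfl | rfl | rfl <;>
      simp only [inst_var, inst_z, inst_s, inst_e, inst_c, inst_P, inst_n, inst_m, inst_A, inst_L,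
        inst_M, inst_Y]
    · exact .sn _
    · exact .zm
    · exact .nm _
    · exact .nA _
    · exact .mA
    · exact .PA _ _
    · exact .PE _
    · exact .AA 0
    · exact .AA 1
    · exact .AA 2
    · exact .AA 3
    · exact .AA 4
    · exact .se
    · exact .sc _ _
    · exact .cz _
    · exact .cs _ _
    · exact .Lx _
    · exact .LA _
    · exact .LM _
    · exact .MA _
    · exact .Mz
    · exact .Ms _
    · exact .Me
    · exact .M0
    · exact .YA _ _
    · exact .YM _ _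
    · exact .YL _ _
    · exact .Ys _
    · exact .Yc (fun i => σ i) _
  · unfold jRules at h
    simp only [List.mem_append, List.mem_cons, List.not_mem_nil, or_false] at h
    rcases h with (rfl | rfl) | h
    · simp only [inst_c, inst_A]
      refine .ce _ _ j ?_
      simp only [if_true, inst_e]
    · simp only [inst_c, inst_A]
      refine .cc _ _ j (fun i' => σ (6 + i')) (σ 11) ?_
      simp only [if_true, inst_c, inst_var]
    · split_ifs at h with hj
      · simp at h
      · simp only [List.mem_cons, List.not_mem_nil, or_false] at h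
        subst h
        simp only [inst_c, inst_A, inst_M]
        refine .Mc _ _ j (σ j) hj ?_
        simp only [if_true, inst_s, inst_var]
  · unfold kRules at h
    simp only [List.mem_cons, List.mem_map] at h
    rcases h with rfl | ⟨j, -, rfl⟩
    · simp only [inst_c, inst_P, inst_z, inst_s, inst_e, inst_B]
      exact .fin k hk _
    · simp only [inst_c, inst_P, inst_B, inst_N, inst_X, inst_var]
      exact .err k hk (fun i => σ i) (fun i => σ (6 + i)) _ j

end Pool.Agent.Q318.OSR
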