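import Pool.Agent.Q318.OSR.Sys

set_option autoImplicit false

/-! The rewrite system, continued. -/

namespace Pool.Agent.Q318.OSR

theorem mem_fixed {K : List CR} {ρ : T × T} (h : ρ ∈ fixedRules) : ρ ∈ RR K :=
  List.mem_append_left _ (List.mem_append_left _ h)

theorem mem_j {K : List CR} {ρ : T × T} (j : Fin 5) (h : ρ ∈ jRules j) : ρ ∈ RR K :=
  List.mem_append_left _ (List.mem_append_right _ (List.mem_flatMap.2 ⟨j, List.mem_finRange j, h⟩))

theorem mem_k {K : List CR} {ρ : T × T} (k : CR) (hk : k ∈ K) (h : ρ ∈ kRules k) : ρ ∈ RR K :=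
  List.mem_append_right _ (List.mem_flatMap.2 ⟨k, hk, h⟩)

theorem ex_of_rt {K : List CR} {g g' : G} (h : Rt K g g') :
    ∃ ρ ∈ RR K, ∃ σ : ℕ → G, g = ρ.1.inst σ ∧ g' = ρ.2.inst σ := by
  cases h with
  | sn t => exact ⟨(ps (pv 0), pn (pv 0)), mem_fixed (by simp [fixedRules]), fun _ => t, rfl, rfl⟩
  | zm => exact ⟨(pz, pm), mem_fixed (by simp [fixedRules]), fun _ => gz, (inst_z _).symm, (inst_m _).symm⟩
  | nm t => exact ⟨(pn (pv 0), pm), mem_fixed (by simp [fixedRules]), fun _ => t, rfl, (inst_m _).symm⟩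
  | nA t => exact ⟨(pn (pv 0), pA 3), mem_fixed (by simp [fixedRules]), fun _ => t, rfl, (inst_A _ _).symm⟩
  | mA => exact ⟨(pm, pA 3), mem_fixed (by simp [fixedRules]), fun _ => gz, (inst_m _).symm, (inst_A _ _).symm⟩
  | PA u v =>
    refine ⟨(pP (pv 0) (pv 1), pA 3), mem_fixed (by simp [fixedRules]),
      fun i => if i = 0 then u else v, ?_, (inst_A _ _).symm⟩
    rw [inst_P]; rfl
  | PE u =>
    refine ⟨(pP (pv 0) (pv 0), pA 4), mem_fixed (by simp [fixedRules]), fun _ => u, ?_,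
      (inst_A _ _).symm⟩
    rw [inst_P]; rfl
  | AA i =>
    fin_cases i
    · exact ⟨(pA 0, pA 1), mem_fixed (by simp [fixedRules]), fun _ => gz, (inst_A _ _).symm, (inst_A _ _).symm⟩
    · exact ⟨(pA 1, pA 2), mem_fixed (by simp [fixedRules]), fun _ => gz, (inst_A _ _).symm, (inst_A _ _).symm⟩
    · exact ⟨(pA 2, pA 3), mem_fixed (by simp [fixedRules]), fun _ => gz, (inst_A _ _).symm, (inst_A _ _).symm⟩
    · exact ⟨(pA 3, pA 4), mem_fixed (by simp [fixedRules]), fun _ => gz, (inst_A _ _).symm, (inst_A _ _).symm⟩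
    · exact ⟨(pA 4, pA 0), mem_fixed (by simp [fixedRules]), fun _ => gz, (inst_A _ _).symm, (inst_A _ _).symm⟩
  | se =>
    exact ⟨(ps pe, pA 3), mem_fixed (by simp [fixedRules]), fun _ => gz,
      by rw [inst_s, inst_e], (inst_A _ _).symm⟩
  | sc a h =>
    refine ⟨(ps (pc (fun i => pv i) (pv 5)), pA 3), mem_fixed (by simp [fixedRules]),
      mkσ a h a h, ?_, (inst_A _ _).symm⟩
    simp only [inst_s, inst_c, inst_var, mkσ_a, mkσ_5]
  | cz a =>
    refine ⟨(pc (fun i => pv i) pz, pA 3), mem_fixed (by simp [fixedRules]),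
      mkσ a gz a gz, ?_, (inst_A _ _).symm⟩
    simp only [inst_z, inst_c, inst_var, mkσ_a]
  | cs a t =>
    refine ⟨(pc (fun i => pv i) (ps (pv 5)), pA 3), mem_fixed (by simp [fixedRules]),
      mkσ a t a t, ?_, (inst_A _ _).symm⟩
    simp only [inst_s, inst_c, inst_var, mkσ_a, mkσ_5]
  | ce a h j ha =>
    refine ⟨(pc (fun i => if i = j then pe else pv i) (pv 5), pA 3), mem_j j (by simp [jRules]),
      mkσ a h a h, ?_, (inst_A _ _).symm⟩
    simp only [inst_c, inst_var, mkσ_5]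
    congr 1
    funext i
    split_ifs with hi
    · subst hi
      rw [ha, inst_e]
    · rw [inst_var, mkσ_a]
  | cc a h j a' h' ha =>
    refine ⟨(pc (fun i => if i = j then pc (fun i' => pv (6 + i')) (pv 11) else pv i) (pv 5), pA 3),
      mem_j j (by simp [jRules]), mkσ a h a' h', ?_, (inst_A _ _).symm⟩
    simp only [inst_c, inst_var, mkσ_5]
    congr 1
    funext i
    split_ifs with hi
    · subst hi
      rw [ha, inst_c]
      simp only [inst_var, mkσ_b, mkσ_11]
    · rw [inst_var, mkσ_a]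
  | Lx t => exact ⟨(pL (pv 0), pv 0), mem_fixed (by simp [fixedRules]), fun _ => g', rfl, rfl⟩
  | LA t => exact ⟨(pL (pv 0), pA 0), mem_fixed (by simp [fixedRules]), fun _ => t, rfl, (inst_A _ _).symm⟩
  | LM t => exact ⟨(pL (pv 0), pM (pv 0)), mem_fixed (by simp [fixedRules]), fun _ => t, rfl, rfl⟩
  | MA t => exact ⟨(pM (pv 0), pA 2), mem_fixed (by simp [fixedRules]), fun _ => t, rfl, (inst_A _ _).symm⟩
  | Mz =>
    exact ⟨(pM pz, pA 3), mem_fixed (by simp [fixedRules]), fun _ => gz,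
      by rw [inst_M, inst_z], (inst_A _ _).symm⟩
  | Ms t =>
    exact ⟨(pM (ps (pv 0)), pA 3), mem_fixed (by simp [fixedRules]), fun _ => t, rfl,
      (inst_A _ _).symm⟩
  | Me =>
    exact ⟨(pM pe, pA 3), mem_fixed (by simp [fixedRules]), fun _ => gz,
      by rw [inst_M, inst_e], (inst_A _ _).symm⟩
  | Mc a h j t hj ha =>
    refine ⟨(pM (pc (fun i => if i = j then ps (pv i) else pv i) (pv 5)), pA 3),
      mem_j j (by simp [jRules, hj]), mkσ (Function.update a j t) h a h, ?_, (inst_A _ _).symm⟩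
    simp only [inst_M, inst_c, inst_var, mkσ_5]
    congr 2
    funext i
    split_ifs with hi
    · subst hi
      rw [ha, inst_s, inst_var, mkσ_a, Function.update_self]
    · rw [inst_var, mkσ_a, Function.update_of_ne hi]
  | M0 =>
    exact ⟨(pM pz, pA 4), mem_fixed (by simp [fixedRules]), fun _ => gz,
      by rw [inst_M, inst_z], (inst_A _ _).symm⟩
  | YA u v =>
    refine ⟨(pY (pv 0) (pv 1), pA 3), mem_fixed (by simp [fixedRules]),
      fun i => if i = 0 then u else v, ?_, (inst_A _ _).symm⟩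
    rw [inst_Y]; rfl
  | YM u v =>
    refine ⟨(pY (pv 0) (pv 1), pM (pv 0)), mem_fixed (by simp [fixedRules]),
      fun i => if i = 0 then u else v, ?_, rfl⟩
    rw [inst_Y]; rfl
  | YL u v =>
    refine ⟨(pY (pv 0) (pv 1), pL (pv 1)), mem_fixed (by simp [fixedRules]),
      fun i => if i = 0 then u else v, ?_, rfl⟩
    rw [inst_Y]; rfl
  | Ys t =>
    refine ⟨(pY (ps (pv 0)) (pv 0), pA 1), mem_fixed (by simp [fixedRules]), fun _ => t, ?_,
      (inst_A _ _).symm⟩
    rw [inst_Y, inst_s]; rfl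
  | Yc a h =>
    refine ⟨(pY (pc (fun i => pv i) (pv 5)) (pv 1), pA 1), mem_fixed (by simp [fixedRules]),
      mkσ a h a h, ?_, (inst_A _ _).symm⟩
    simp only [inst_Y, inst_c, inst_var, mkσ_5, mkσ_a]
    congr 1
  | fin k hk x =>
    refine ⟨(pc (pB k) pe, pP pz (ps pz)), mem_k k hk (by simp [kRules]), mkσ x gz x gz, ?_, ?_⟩
    · simp only [inst_c, inst_e, inst_B, mkσ_a]
    · simp only [inst_P, inst_s, inst_z]
  | err k hk x y h j =>
    refine ⟨(pc (pB k) (pc (fun i => pv (6 + i)) (pv 11)), pP (pN (k.be j) (pX k j)) (pv (6 + j))),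
      mem_k k hk (by simp [kRules]), mkσ x h y h, ?_, ?_⟩
    · simp only [inst_c, inst_B, inst_var, mkσ_a, mkσ_b, mkσ_11]
    · simp only [inst_P, inst_N, inst_X, inst_var, mkσ_a, mkσ_b]

/-- One-step rewriting in terms of the instances. -/
theorem step_rt {K : List CR} {x y : G} :
    Step (RR K) x y ↔ ∃ (D : Cx Sg) (g g' : G), Rt K g g' ∧ x = D.fill g ∧ y = D.fill g' := by
  rw [step_iff]
  constructor
  · rintro ⟨D, ρ, hρ, σ, rfl, rfl⟩
    exact ⟨D, _, _, rt_of_mem hρ σ, rfl, rfl⟩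
  · rintro ⟨D, g, g', h, rfl, rfl⟩
    obtain ⟨ρ, hρ, σ, h1, h2⟩ := ex_of_rt h
    exact ⟨D, ρ, hρ, σ, by rw [h1], by rw [h2]⟩

theorem Rt.step {K : List CR} {g g' : G} (h : Rt K g g') : Step (RR K) g g' :=
  step_rt.2 ⟨.hole, g, g', h, rfl, rfl⟩

theorem Rt.fill {K : List CR} {g g' : G} (D : Cx Sg) (h : Rt K g g') :
    Step (RR K) (D.fill g) (D.fill g') :=
  step_rt.2 ⟨D, g, g', h, rfl, rfl⟩

/-! ### The rules are rules -/

section occ
variable (x : ℕ)

theorem occ_v (i : ℕ) : (pv i).Occurs x ↔ i = x := Iff.rfl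
theorem occ_z : ¬ pz.Occurs x := fun ⟨i, _⟩ => Fin.elim0 i
theorem occ_e : ¬ pe.Occurs x := fun ⟨i, _⟩ => Fin.elim0 i
theorem occ_m : ¬ pm.Occurs x := fun ⟨i, _⟩ => Fin.elim0 i
theorem occ_A (k : Fin 5) : ¬ (pA k).Occurs x := fun ⟨i, _⟩ => Fin.elim0 i
theorem occ_s (t : T) : (ps t).Occurs x ↔ t.Occurs x := ⟨fun ⟨_, h⟩ => h, fun h => ⟨(0 : Fin 1), h⟩⟩
theorem occ_n (t : T) : (pn t).Occurs x ↔ t.Occurs x := ⟨fun ⟨_, h⟩ => h, fun h => ⟨(0 : Fin 1), h⟩⟩
theorem occ_L (t : T) : (pL t).Occurs x ↔ t.Occurs x := ⟨fun ⟨_, h⟩ => h, fun h => ⟨(0 : Fin 1), h⟩⟩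
theorem occ_M (t : T) : (pM t).Occurs x ↔ t.Occurs x := ⟨fun ⟨_, h⟩ => h, fun h => ⟨(0 : Fin 1), h⟩⟩

theorem occ_P (u v : T) : (pP u v).Occurs x ↔ u.Occurs x ∨ v.Occurs x := by
  constructor
  · rintro ⟨i, h⟩
    revert h
    refine Fin.cases (fun h => ?_) (fun j h => ?_) (i : Fin 2)
    · exact .inl h
    · exact .inr h
  · rintro (h | h)
    · exact ⟨(0 : Fin 2), h⟩
    · exact ⟨(1 : Fin 2), h⟩

theorem occ_Y (u v : T) : (pY u v).Occurs x ↔ u.Occurs x ∨ v.Occurs x := by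
  constructor
  · rintro ⟨i, h⟩
    revert h
    refine Fin.cases (fun h => ?_) (fun j h => ?_) (i : Fin 2)
    · exact .inl h
    · exact .inr h
  · rintro (h | h)
    · exact ⟨(0 : Fin 2), h⟩
    · exact ⟨(1 : Fin 2), h⟩

theorem occ_c (a : Fin 5 → T) (h : T) : (pc a h).Occurs x ↔ (∃ j, (a j).Occurs x) ∨ h.Occurs x := by
  constructor
  · rintro ⟨i, h⟩
    revert h
    refine Fin.cases (fun h => ?_) (fun j h => ?_) (i : Fin 6)
    · exact .inr h
    · exact .inl ⟨j, h⟩
  · rintro (⟨j, h⟩ | h)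
    · exact ⟨(j.succ : Fin 6), h⟩
    · exact ⟨(0 : Fin 6), h⟩

theorem occ_N (k : ℕ) (t : T) : (pN k t).Occurs x ↔ t.Occurs x := by
  induction k with
  | zero => rfl
  | succ k ih => rw [pN, occ_s, ih]

end occ

theorem isRule_of {f : Sy} {a : Fin (ari f) → T} {r : T}
    (h : ∀ x, r.Occurs x → (Term.app (S := Sg) f a).Occurs x) :
    IsRule (Term.app (S := Sg) f a, r) :=
  ⟨fun _ h => by simp at h, h⟩

theorem isRule_RR {K : List CR} {ρ : T × T} (hρ : ρ ∈ RR K) : IsRule ρ := by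
  unfold RR at hρ
  simp only [List.mem_append, List.mem_flatMap] at hρ
  rcases hρ with (h | ⟨j, -, h⟩) | ⟨k, hk, h⟩
  · unfold fixedRules at h
    simp only [List.mem_cons, List.not_mem_nil, or_false] at h
    rcases h with rfl | rfl | rfl | rfl | rfl | rfl | rfl | rfl | rfl | rfl | rfl | rfl | rfl | rfl |
      rfl | rfl | rfl | rfl | rfl | rfl | rfl | rfl | rfl | rfl | rfl | rfl | rfl | rfl | rfl <;>
      refine isRule_of fun x hx => ?_
    all_goals try exact absurd hx (occ_A x _)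
    all_goals try exact absurd hx (occ_m x)
    · exact hx
    · exact (occ_L x _).2 hx
    · exact hx
    · exact (occ_Y x _ _).2 (.inl ((occ_M x _).1 hx))
    · exact (occ_Y x _ _).2 (.inr ((occ_L x _).1 hx))
  · unfold jRules at h
    simp only [List.mem_append, List.mem_cons, List.not_mem_nil, or_false] at h
    rcases h with (rfl | rfl) | h
    · exact isRule_of fun x hx => absurd hx (occ_A x _)
    · exact isRule_of fun x hx => absurd hx (occ_A x _)
    · split_ifs at h with hj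
      · simp at h
      · simp only [List.mem_cons, List.not_mem_nil, or_false] at h
        subst h
        exact isRule_of fun x hx => absurd hx (occ_A x _)
  · unfold kRules at h
    simp only [List.mem_cons, List.mem_map] at h
    rcases h with rfl | ⟨j, -, rfl⟩
    · refine isRule_of fun x hx => ?_
      rw [occ_P, occ_s] at hx
      rcases hx with hx | hx
      · exact absurd hx (occ_z x)
      · exact absurd hx (occ_z x)
    · refine isRule_of fun x hx => ?_
      rw [occ_P, occ_N] at hx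
      change (pc _ _).Occurs x
      rw [occ_c, occ_c]
      rcases hx with hx | hx
      · exact .inl ⟨j, (occ_N x _ _).2 hx⟩
      · exact .inr (.inl ⟨j, hx⟩)

end Pool.Agent.Q318.OSR
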